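import Mathlib
import Pool.Agent.H69.FlowDefs

/-!
# Flow polynomials of expanders: definitions

A finite multigraph is given by `s t : E → V`.  The flow polynomial `fp s t`, the relation
`rel s t A` and the number of components `comps s t A` are those of `Pool.Agent.H69.FlowDefs`.
-/

set_option autoImplicit false

namespace Pool.Agent.LibFE4

open Finset Pool.Agent.H69.Flow
open scoped Classical

variable {V E : Type} [Fintype V] [Fintype E]

/-- The edges with both ends in `U`. -/
noncomputable def ins (s t : E → V) (U : Finset V) : Finset E :=
  univ.filter (fun e => s e ∈ U ∧ t e ∈ U)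

/-- The number of edges with exactly one end in `U`. -/
noncomputable def bd (s t : E → V) (U : Finset V) : ℕ :=
  (univ.filter (fun e => ¬ (s e ∈ U ↔ t e ∈ U))).card

/-- The sum of the degrees of the vertices in `U` (a loop counts twice). -/
noncomputable def vol (s t : E → V) (U : Finset V) : ℕ :=
  (univ.filter (fun e => s e ∈ U)).card + (univ.filter (fun e => t e ∈ U)).card

/-- `U` is a union of components of `(V, A)`. -/
def cl (s t : E → V) (A : Finset E) (U : Finset V) : Prop :=
  ∀ e ∈ A, (s e ∈ U ↔ t e ∈ U)

/-- The number of components of `(V, A)` which meet `U`. -/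
noncomputable def kap (s t : E → V) (A : Finset E) (U : Finset V) : ℕ :=
  (U.image (Quot.mk (rel s t A))).card

/-- The component of `v` in `(V, A)`. -/
noncomputable def clus (s t : E → V) (A : Finset E) (v : V) : Finset V :=
  univ.filter (fun u => Quot.mk (rel s t A) u = Quot.mk (rel s t A) v)

/-- The component of `v` in the induced subgraph on `U` (if `v ∈ U`). -/
noncomputable def comp (s t : E → V) (U : Finset V) (v : V) : Finset V :=
  U.filter (fun u => Quot.mk (rel s t (ins s t U)) u = Quot.mk (rel s t (ins s t U)) v)

/-- The induced subgraph on `X` is connected and `v ∈ X`. -/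
def Con (s t : E → V) (X : Finset V) (v : V) : Prop := v ∈ X ∧ comp s t X v = X

/-- All components of the induced subgraph on `U` have at most half of the volume. -/
def small (s t : E → V) (U : Finset V) : Prop :=
  ∀ v ∈ U, 2 * vol s t (comp s t U v) ≤ vol s t univ

/-- The closed neighbourhood of `X`. -/
noncomputable def nb (s t : E → V) (X : Finset V) : Finset V :=
  univ.filter (fun u => u ∈ X ∨ ∃ e, (s e ∈ X ∧ t e = u) ∨ (t e ∈ X ∧ s e = u))

/-- Potts partition function of the induced subgraph on `U` with `y` colours and the kernel
`z * (equal colours) - 1`, as a sum over edge sets. -/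
noncomputable def Zs (s t : E → V) (z y : ℂ) (U : Finset V) : ℂ :=
  ∑ A ∈ (ins s t U).powerset,
    z ^ A.card * (-1) ^ ((ins s t U).card - A.card) * y ^ kap s t A U

/-- The weight of a set `U` of vertices with other colours than the first one. -/
noncomputable def wt (s t : E → V) (z : ℂ) (U : Finset V) : ℂ :=
  (-1) ^ bd s t U * ((z - 1)⁻¹) ^ ((ins s t U).card + bd s t U) * Zs s t z (z - 1) U

/-- The polymer partition function on `W`. -/
noncomputable def Phi (s t : E → V) (z : ℂ) (W : Finset V) : ℂ :=
  ∑ U ∈ W.powerset.filter (fun U => small s t U), wt s t z U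

/-- The weight of an edge set. -/
noncomputable def we (z : ℂ) (A : Finset E) : ℂ :=
  z ^ A.card * (-1) ^ (Fintype.card E - A.card)

end Pool.Agent.LibFE4
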