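import Mathlib
import Pool.Agent.H69.FlowProof
import Pool.Agent.LibFE4.Defs

/-!
# Row B1: handshake and the bound for the weight of a connected set

Plan.  `vol_eq`: count the edges according to `s e ∈ U`, `t e ∈ U`.
`kap_comps`: for `A ⊆ ins U` the components of `(V, A)` are those that meet `U` and the
`|V| - |U|` singletons outside `U`: `comps A = kap A U + (|V| - |U|)`; e.g. the image of `Uᶜ` in
the quotient has `|Uᶜ|` elements (`Finset.card_image_of_injOn`: no edge of `A` meets `Uᶜ`, use
`Quot.lift` of `fun u => if u ∈ U then none else some u`) and is disjoint from the image of `U`.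
`Zs_bound`: `|A| + comps A ≤ |ins X| + comps (ins X)` (`expo_mono`) and `kap (ins X) X = 1`
(`Con`: all elements of `X` have the same class as `v`), so `|A| + kap A X ≤ |ins X| + 1`; every
term is at most `R ^ (|ins X| + 1)` and there are `2 ^ |ins X|` terms.
-/

set_option autoImplicit false

namespace Pool.Agent.LibFE4

open Finset Pool.Agent.H69.Flow
open scoped Classical

variable {V E : Type} [Fintype V] [Fintype E]

theorem vol_eq (s t : E → V) (U : Finset V) :
    vol s t U = 2 * (ins s t U).card + bd s t U := by
  unfold vol ins bd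
  simp only [Finset.card_filter, Finset.mul_sum, ← Finset.sum_add_distrib]
  refine Finset.sum_congr rfl (fun e _ => ?_)
  by_cases h1 : s e ∈ U <;> by_cases h2 : t e ∈ U <;> simp [h1, h2]

private lemma comps_image (s t : E → V) (A : Finset E) :
    comps s t A = ((univ : Finset V).image (Quot.mk (rel s t A))).card := by
  haveI : Fintype (Quot (rel s t A)) := Fintype.ofFinite _
  unfold comps
  rw [Nat.card_eq_fintype_card, Finset.image_univ_of_surjective Quot.mk_surjective,
    Finset.card_univ]

theorem kap_comps (s t : E → V) {A : Finset E} {U : Finset V} (h : A ⊆ ins s t U) :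
    comps s t A = kap s t A U + (Fintype.card V - U.card) := by
  have hl : ∀ a b : V, rel s t A a b →
      (fun u : V => if u ∈ U then (none : Option V) else some u) a =
        (fun u : V => if u ∈ U then (none : Option V) else some u) b := by
    rintro a b ⟨e, he, rfl, rfl⟩
    have h2 := h he
    unfold ins at h2
    rw [Finset.mem_filter] at h2
    simp [h2.2.1, h2.2.2]
  let f : Quot (rel s t A) → Option V :=
    Quot.lift (fun u : V => if u ∈ U then (none : Option V) else some u) hl
  have hf1 : ∀ u, u ∈ U → f (Quot.mk _ u) = none := by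
    intro u hu
    change (if u ∈ U then (none : Option V) else some u) = none
    rw [if_pos hu]
  have hf2 : ∀ u, u ∉ U → f (Quot.mk _ u) = some u := by
    intro u hu
    change (if u ∈ U then (none : Option V) else some u) = some u
    rw [if_neg hu]
  have hu : (univ : Finset V) = U ∪ Uᶜ := (Finset.union_compl U).symm
  have hd : Disjoint (U.image (Quot.mk (rel s t A))) (Uᶜ.image (Quot.mk (rel s t A))) := by
    rw [Finset.disjoint_left]
    intro q h1 h2
    obtain ⟨a, ha, ha'⟩ := Finset.mem_image.mp h1
    obtain ⟨b, hb, hb'⟩ := Finset.mem_image.mp h2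
    have e1 := hf1 a ha
    have e2 := hf2 b (Finset.mem_compl.mp hb)
    rw [ha', ← hb', e2] at e1
    exact absurd e1 (by simp)
  have hi : (Uᶜ.image (Quot.mk (rel s t A))).card = Uᶜ.card := by
    apply Finset.card_image_of_injOn
    intro a ha b hb hab
    have ha' : a ∉ U := Finset.mem_compl.mp (Finset.mem_coe.mp ha)
    have hb' : b ∉ U := Finset.mem_compl.mp (Finset.mem_coe.mp hb)
    have e1 := congrArg f hab
    rw [hf2 a ha', hf2 b hb'] at e1
    exact Option.some.inj e1
  rw [comps_image, hu, Finset.image_union, Finset.card_union_of_disjoint hd, hi,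
    Finset.card_compl]
  rfl

theorem Zs_bound (s t : E → V) (z y : ℂ) (R : ℝ) (hR : 1 ≤ R) (hz : ‖z‖ ≤ R) (hy : ‖y‖ ≤ R)
    (X : Finset V) (v : V) (h : Con s t X v) :
    ‖Zs s t z y X‖ ≤ 2 ^ (ins s t X).card * R ^ ((ins s t X).card + 1) := by
  have hk : kap s t (ins s t X) X = 1 := by
    unfold kap
    rw [Finset.card_eq_one]
    refine ⟨Quot.mk _ v, ?_⟩
    apply Finset.eq_singleton_iff_unique_mem.mpr
    refine ⟨Finset.mem_image_of_mem _ h.1, ?_⟩
    intro q hq
    obtain ⟨u, hu, rfl⟩ := Finset.mem_image.mp hq
    have h2 := h.2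
    rw [← h2] at hu
    unfold comp at hu
    exact (Finset.mem_filter.mp hu).2
  have hR0 : 0 ≤ R := le_trans zero_le_one hR
  have hb : ∀ A ∈ (ins s t X).powerset,
      ‖z ^ A.card * (-1 : ℂ) ^ ((ins s t X).card - A.card) * y ^ kap s t A X‖ ≤
        R ^ ((ins s t X).card + 1) := by
    intro A hA
    have hA' : A ⊆ ins s t X := Finset.mem_powerset.mp hA
    have e1 := expo_mono s t hA'
    have e2 := kap_comps s t hA'
    have e3 := kap_comps s t (Finset.Subset.refl (ins s t X))
    rw [hk] at e3
    have e4 : A.card + kap s t A X ≤ (ins s t X).card + 1 := by omega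
    rw [norm_mul, norm_mul, norm_pow, norm_pow, norm_pow, norm_neg, norm_one, one_pow, mul_one]
    calc ‖z‖ ^ A.card * ‖y‖ ^ kap s t A X ≤ R ^ A.card * R ^ kap s t A X := by
          gcongr
      _ = R ^ (A.card + kap s t A X) := (pow_add _ _ _).symm
      _ ≤ R ^ ((ins s t X).card + 1) := pow_le_pow_right₀ hR e4
  unfold Zs
  refine le_trans (norm_sum_le _ _) ?_
  refine le_trans (Finset.sum_le_sum hb) ?_
  rw [Finset.sum_const, Finset.card_powerset, nsmul_eq_mul]
  push_cast
  exact le_refl _

end Pool.Agent.LibFE4
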