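import Mathlib
import Pool.Agent.LibFE4.Defs

/-!
# Row B2: edge sets without a giant component

Plan.  Let `Q = Quot (rel s t A)` (a `Fintype`, `comps = card Q`) and, for `q : Q`,
`C q = univ.filter (fun v => Quot.mk _ v = q)` (nonempty).  Then
`∑ q, vol (C q) = vol univ = 2 * |E|` and `A` is the disjoint union of the sets `A ∩ ins (C q)`
(both ends of an edge of `A` are in the same class).  With
`vol (C q) = 2 * |ins (C q)| + bd (C q)` (row B1, `vol_eq`; or count directly) one gets
`2 * |A| + ∑ q, bd (C q) ≤ 2 * |E|`.  By `hA` and `hm` no `C q` is `univ`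
(`2 * vol univ ≤ vol univ` is impossible for `0 < |E|`), so `3 ≤ bd (C q)` and
`ε * vol (C q) ≤ bd (C q)`: hence `3 * comps A ≤ ∑ bd` and `ε * 2 * |E| ≤ ∑ bd`, and
`6 * (|A| + comps A) ≤ 6 * |A| + 2 * ∑ bd = 3 * (2 * |A| + ∑ bd) - ∑ bd ≤ 6 * |E| - 2 * ε * |E|`.
-/

set_option autoImplicit false

namespace Pool.Agent.LibFE4

open Finset Pool.Agent.H69.Flow
open scoped Classical

variable {V E : Type} [Fintype V] [Fintype E]

private lemma vol_eq' (s t : E → V) (U : Finset V) :
    vol s t U = 2 * (ins s t U).card + bd s t U := by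
  unfold vol ins bd
  simp only [Finset.card_filter, Finset.mul_sum, ← Finset.sum_add_distrib]
  refine Finset.sum_congr rfl (fun e _ => ?_)
  by_cases h1 : s e ∈ U <;> by_cases h2 : t e ∈ U <;> simp [h1, h2]

private lemma vol_univ' (s t : E → V) : vol s t univ = 2 * Fintype.card E := by
  unfold vol
  simp
  ring

theorem card_bound (s t : E → V) (ε : ℝ)
    (h3 : ∀ S : Finset V, S.Nonempty → S ≠ univ → 3 ≤ bd s t S)
    (hε : ∀ S : Finset V, 2 * vol s t S ≤ vol s t univ → ε * (vol s t S : ℝ) ≤ bd s t S)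
    (hm : 0 < Fintype.card E) (A : Finset E)
    (hA : ∀ v, 2 * vol s t (clus s t A v) ≤ vol s t univ) :
    (A.card : ℝ) + comps s t A ≤ Fintype.card E - ε * Fintype.card E / 3 := by
  haveI : Fintype (Quot (rel s t A)) := Fintype.ofFinite _
  have hc : comps s t A = Fintype.card (Quot (rel s t A)) := by
    unfold comps
    rw [Nat.card_eq_fintype_card]
  set C : Quot (rel s t A) → Finset V :=
    fun q => univ.filter (fun v => Quot.mk (rel s t A) v = q) with hC
  have hmemC : ∀ q v, v ∈ C q ↔ Quot.mk (rel s t A) v = q := by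
    intro q v
    simp [hC]
  have hclus : ∀ v, clus s t A v = C (Quot.mk _ v) := by
    intro v
    rfl
  have hvu := vol_univ' s t
  -- sum of volumes
  have hcount : ∀ f : E → V, ∑ q : Quot (rel s t A), (univ.filter (fun e => f e ∈ C q)).card =
      Fintype.card E := by
    intro f
    have h := Finset.card_eq_sum_card_fiberwise (f := fun e : E => Quot.mk (rel s t A) (f e))
      (s := (univ : Finset E)) (t := (univ : Finset (Quot (rel s t A))))
      (fun x _ => Finset.mem_coe.mpr (Finset.mem_univ _))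
    rw [Finset.card_univ] at h
    rw [h]
    refine Finset.sum_congr rfl (fun q _ => ?_)
    congr 1
    ext e
    simp [hmemC]
  have hvol : ∑ q : Quot (rel s t A), vol s t (C q) = 2 * Fintype.card E := by
    unfold vol
    rw [Finset.sum_add_distrib, hcount s, hcount t]
    ring
  -- the edges of A
  have hAc : A.card ≤ ∑ q : Quot (rel s t A), (ins s t (C q)).card := by
    have h := Finset.card_eq_sum_card_fiberwise (f := fun e : E => Quot.mk (rel s t A) (s e))
      (s := A) (t := (univ : Finset (Quot (rel s t A))))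
      (fun x _ => Finset.mem_coe.mpr (Finset.mem_univ _))
    rw [h]
    refine Finset.sum_le_sum (fun q _ => ?_)
    apply Finset.card_le_card
    intro e he
    rw [Finset.mem_filter] at he
    unfold ins
    rw [Finset.mem_filter]
    refine ⟨Finset.mem_univ _, (hmemC q _).mpr he.2, (hmemC q _).mpr ?_⟩
    rw [← he.2]
    exact (Quot.sound ⟨e, he.1, rfl, rfl⟩).symm
  have hsum : ∑ q : Quot (rel s t A), vol s t (C q) =
      2 * ∑ q : Quot (rel s t A), (ins s t (C q)).card + ∑ q : Quot (rel s t A), bd s t (C q) := by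
    rw [Finset.mul_sum, ← Finset.sum_add_distrib]
    exact Finset.sum_congr rfl (fun q _ => vol_eq' s t (C q))
  have hne : ∀ q, (C q).Nonempty := by
    intro q
    obtain ⟨v, rfl⟩ := Quot.exists_rep q
    exact ⟨v, (hmemC _ _).mpr rfl⟩
  have hsm : ∀ q, 2 * vol s t (C q) ≤ vol s t univ := by
    intro q
    obtain ⟨v, rfl⟩ := Quot.exists_rep q
    have := hA v
    rw [hclus] at this
    exact this
  have hnu : ∀ q, C q ≠ univ := by
    intro q hq
    have h1 := hsm q
    rw [hq, hvu] at h1
    omega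
  have hb3 : 3 * comps s t A ≤ ∑ q : Quot (rel s t A), bd s t (C q) := by
    rw [hc]
    have h : ∑ q : Quot (rel s t A), 3 ≤ ∑ q : Quot (rel s t A), bd s t (C q) :=
      Finset.sum_le_sum (fun q _ => h3 (C q) (hne q) (hnu q))
    rw [Finset.sum_const, Finset.card_univ, smul_eq_mul] at h
    linarith
  have hbe : ε * (2 * (Fintype.card E : ℝ)) ≤
      ((∑ q : Quot (rel s t A), bd s t (C q) : ℕ) : ℝ) := by
    have h : ∑ q : Quot (rel s t A), ε * (vol s t (C q) : ℝ) ≤
        ∑ q : Quot (rel s t A), (bd s t (C q) : ℝ) :=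
      Finset.sum_le_sum (fun q _ => hε (C q) (hsm q))
    rw [← Finset.mul_sum] at h
    have h2 : ∑ q : Quot (rel s t A), (vol s t (C q) : ℝ) = 2 * (Fintype.card E : ℝ) := by
      have := congrArg (fun n : ℕ => (n : ℝ)) hvol
      push_cast at this
      exact this
    rw [h2] at h
    push_cast
    exact h
  have hb3' : (3 : ℝ) * (comps s t A : ℝ) ≤ ((∑ q : Quot (rel s t A), bd s t (C q) : ℕ) : ℝ) := by
    exact_mod_cast hb3
  have h2A : 2 * A.card + ∑ q : Quot (rel s t A), bd s t (C q) ≤ 2 * Fintype.card E := by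
    rw [hvol] at hsum
    omega
  have h2A' : 2 * (A.card : ℝ) + ((∑ q : Quot (rel s t A), bd s t (C q) : ℕ) : ℝ) ≤
      2 * (Fintype.card E : ℝ) := by
    exact_mod_cast h2A
  linarith

end Pool.Agent.LibFE4
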