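import Mathlib
import Pool.Agent.LibFE4.Defs

/-!
# Row C1: lattice animals

Claim: if every vertex has degree at least 1 and `0 ≤ θ ≤ 1/4` then the sum of `θ ^ vol X` over
the connected sets `X` containing `v` is at most 1.

Proof.  For sets `X ∋ v` and `F` let `T X F` be the sum of `θ ^ vol Y` over the connected sets `Y ∋ v` with
`X ⊆ Y` and `Y ∩ F = ∅`, and `k X F` the number of edges between `X` and the complement of `X ∪ F`.  Then
`T X F ≤ θ ^ vol X * 2 ^ k X F`, by induction on the number of vertices outside `X ∪ F`: if `k X F = 0` then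
`Y = X`; otherwise choose an edge from `X` to some `u` outside `X ∪ F` and split into `u ∈ Y` and `u ∉ Y`.
-/

set_option autoImplicit false
set_option linter.unusedSectionVars false
set_option linter.unusedVariables false

namespace Pool.Agent.LibFE4

open Finset Pool.Agent.H69.Flow
open scoped Classical

variable {V E : Type} [Fintype V] [Fintype E]

/-- The edges between `X` and the complement of `X ∪ F`. -/
noncomputable def C1k (s t : E → V) (X F : Finset V) : ℕ :=
  (univ.filter (fun e => (s e ∈ X ∧ t e ∉ X ∧ t e ∉ F) ∨ (t e ∈ X ∧ s e ∉ X ∧ s e ∉ F))).card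

/-- The edges between `X` and `u`. -/
noncomputable def C1b (s t : E → V) (X : Finset V) (u : V) : ℕ :=
  (univ.filter (fun e => (s e ∈ X ∧ t e = u) ∨ (t e ∈ X ∧ s e = u))).card

theorem C1_vol_insert (s t : E → V) (X : Finset V) (u : V) (hu : u ∉ X) :
    vol s t (insert u X) = vol s t {u} + vol s t X := by
  unfold vol
  have h1 : (univ.filter (fun e => s e ∈ insert u X)).card =
      (univ.filter (fun e => s e ∈ ({u} : Finset V))).card + (univ.filter (fun e => s e ∈ X)).card := by
    simp only [Finset.card_filter]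
    rw [← Finset.sum_add_distrib]
    refine Finset.sum_congr rfl fun e _ => ?_
    by_cases h : s e = u
    · have : s e ∉ X := by rw [h]; exact hu
      simp [h, hu]
    · by_cases h2 : s e ∈ X <;> simp [h, h2]
  have h2 : (univ.filter (fun e => t e ∈ insert u X)).card =
      (univ.filter (fun e => t e ∈ ({u} : Finset V))).card + (univ.filter (fun e => t e ∈ X)).card := by
    simp only [Finset.card_filter]
    rw [← Finset.sum_add_distrib]
    refine Finset.sum_congr rfl fun e _ => ?_
    by_cases h : t e = u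
    · have : t e ∉ X := by rw [h]; exact hu
      simp [h, hu]
    · by_cases h2 : t e ∈ X <;> simp [h, h2]
  omega

theorem C1_excl (s t : E → V) (X F : Finset V) (u : V) (hu : u ∉ X) (hF : u ∉ F) :
    C1k s t X (insert u F) + C1b s t X u ≤ C1k s t X F := by
  unfold C1k C1b
  simp only [Finset.card_filter]
  rw [← Finset.sum_add_distrib]
  refine Finset.sum_le_sum fun e _ => ?_
  by_cases h1 : s e ∈ X <;> by_cases h2 : t e ∈ X <;> by_cases h3 : s e = u <;> by_cases h4 : t e = u <;>
    by_cases h5 : s e ∈ F <;> by_cases h6 : t e ∈ F <;> simp_all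

theorem C1_incl (s t : E → V) (X F : Finset V) (u : V) (hu : u ∉ X) (hF : u ∉ F) :
    C1k s t (insert u X) F + 2 * C1b s t X u ≤ C1k s t X F + vol s t {u} := by
  unfold C1k C1b vol
  simp only [Finset.card_filter]
  rw [Finset.mul_sum, ← Finset.sum_add_distrib, ← Finset.sum_add_distrib, ← Finset.sum_add_distrib]
  refine Finset.sum_le_sum fun e _ => ?_
  by_cases h1 : s e ∈ X <;> by_cases h2 : t e ∈ X <;> by_cases h3 : s e = u <;> by_cases h4 : t e = u <;>
    by_cases h5 : s e ∈ F <;> by_cases h6 : t e ∈ F <;> simp_all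

theorem C1_base (s t : E → V) (X F Y : Finset V) (v : V) (hv : v ∈ X)
    (hno : ∀ e, ¬ ((s e ∈ X ∧ t e ∉ X ∧ t e ∉ F) ∨ (t e ∈ X ∧ s e ∉ X ∧ s e ∉ F)))
    (hY : Con s t Y v) (hXY : X ⊆ Y) (hd : Disjoint Y F) : Y = X := by
  apply le_antisymm _ hXY
  intro w hw
  have h1 : w ∈ comp s t Y v := by
    rw [hY.2]
    exact hw
  unfold comp at h1
  rw [Finset.mem_filter] at h1
  have hinv : ∀ a b : V, rel s t (ins s t Y) a b → (a ∈ X) = (b ∈ X) := by
    rintro a b ⟨e, he, rfl, rfl⟩
    unfold ins at he
    rw [Finset.mem_filter] at he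
    have hs : s e ∉ F := fun h => Finset.disjoint_left.1 hd he.2.1 h
    have ht : t e ∉ F := fun h => Finset.disjoint_left.1 hd he.2.2 h
    have := hno e
    apply propext
    constructor
    · intro h
      by_contra h'
      exact this (Or.inl ⟨h, h', ht⟩)
    · intro h
      by_contra h'
      exact this (Or.inr ⟨h, h', hs⟩)
  have h2 := congrArg (Quot.lift (fun a : V => a ∈ X) hinv) h1.2
  have h3 : (w ∈ X) = (v ∈ X) := h2
  rw [h3]
  exact hv

theorem C1_main (s t : E → V) (θ : ℝ) (h0 : 0 ≤ θ) (h1 : θ ≤ 1 / 4) (v : V) (n : ℕ) :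
    ∀ X F : Finset V, v ∈ X → (univ \ (X ∪ F)).card ≤ n →
      ∑ Y ∈ univ.filter (fun Y : Finset V => Con s t Y v ∧ X ⊆ Y ∧ Disjoint Y F), θ ^ vol s t Y ≤
        θ ^ vol s t X * 2 ^ C1k s t X F := by
  induction n with
  | zero =>
    intro X F hv hc
    have hall : ∀ w : V, w ∈ X ∪ F := by
      intro w
      by_contra hw
      have : w ∈ univ \ (X ∪ F) := by simp only [Finset.mem_sdiff, Finset.mem_univ, true_and]; exact hw
      rw [Finset.card_eq_zero.1 (Nat.le_zero.1 hc)] at this
      simp at this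
    have hno : ∀ e, ¬ ((s e ∈ X ∧ t e ∉ X ∧ t e ∉ F) ∨ (t e ∈ X ∧ s e ∉ X ∧ s e ∉ F)) := by
      rintro e (⟨_, h2, h3⟩ | ⟨_, h2, h3⟩)
      · have := hall (t e)
        rw [Finset.mem_union] at this
        tauto
      · have := hall (s e)
        rw [Finset.mem_union] at this
        tauto
    have hsub : univ.filter (fun Y : Finset V => Con s t Y v ∧ X ⊆ Y ∧ Disjoint Y F) ⊆ {X} := by
      intro Y hY
      rw [Finset.mem_filter] at hY
      rw [Finset.mem_singleton]
      exact C1_base s t X F Y v hv hno hY.2.1 hY.2.2.1 hY.2.2.2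
    calc _ ≤ ∑ Y ∈ ({X} : Finset (Finset V)), θ ^ vol s t Y :=
          Finset.sum_le_sum_of_subset_of_nonneg hsub fun _ _ _ => pow_nonneg h0 _
      _ = θ ^ vol s t X * 1 := by simp
      _ ≤ _ := mul_le_mul_of_nonneg_left (one_le_pow₀ (by norm_num)) (pow_nonneg h0 _)
  | succ n ih =>
    intro X F hv hc
    by_cases hex : ∃ e, (s e ∈ X ∧ t e ∉ X ∧ t e ∉ F) ∨ (t e ∈ X ∧ s e ∉ X ∧ s e ∉ F)
    · obtain ⟨u, huX, huF, hb⟩ : ∃ u, u ∉ X ∧ u ∉ F ∧ 1 ≤ C1b s t X u := by
        obtain ⟨e, he | he⟩ := hex
        · refine ⟨t e, he.2.1, he.2.2, ?_⟩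
          unfold C1b
          exact Finset.card_pos.2 ⟨e, by
            rw [Finset.mem_filter]; exact ⟨Finset.mem_univ _, Or.inl ⟨he.1, rfl⟩⟩⟩
        · refine ⟨s e, he.2.1, he.2.2, ?_⟩
          unfold C1b
          exact Finset.card_pos.2 ⟨e, by
            rw [Finset.mem_filter]; exact ⟨Finset.mem_univ _, Or.inr ⟨he.1, rfl⟩⟩⟩
      have hcard : ∀ Z : Finset V, X ∪ F ⊆ Z → u ∈ Z → (univ \ Z).card ≤ n := by
        intro Z hZ hu
        have hlt : (univ \ Z).card < (univ \ (X ∪ F)).card := by
          apply Finset.card_lt_card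
          rw [Finset.ssubset_iff_of_subset (Finset.sdiff_subset_sdiff le_rfl hZ)]
          refine ⟨u, ?_, ?_⟩
          · simp only [Finset.mem_sdiff, Finset.mem_univ, true_and, Finset.mem_union, not_or]
            exact ⟨huX, huF⟩
          · simp [hu]
        omega
      have i1 := ih (insert u X) F (Finset.mem_insert_of_mem hv)
        (hcard _ (Finset.union_subset_union (Finset.subset_insert _ _) le_rfl)
          (Finset.mem_union_left _ (Finset.mem_insert_self _ _)))
      have i2 := ih X (insert u F) hv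
        (hcard _ (Finset.union_subset_union le_rfl (Finset.subset_insert _ _))
          (Finset.mem_union_right _ (Finset.mem_insert_self _ _)))
      have hsplit : ∑ Y ∈ univ.filter (fun Y : Finset V => Con s t Y v ∧ X ⊆ Y ∧ Disjoint Y F), θ ^ vol s t Y =
          ∑ Y ∈ univ.filter (fun Y : Finset V => Con s t Y v ∧ insert u X ⊆ Y ∧ Disjoint Y F), θ ^ vol s t Y +
          ∑ Y ∈ univ.filter (fun Y : Finset V => Con s t Y v ∧ X ⊆ Y ∧ Disjoint Y (insert u F)),
            θ ^ vol s t Y := by
        rw [← Finset.sum_filter_add_sum_filter_not _ (fun Y : Finset V => u ∈ Y), Finset.filter_filter,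
          Finset.filter_filter]
        congr 1
        · refine Finset.sum_congr ?_ fun _ _ => rfl
          ext Y
          simp only [Finset.mem_filter, Finset.mem_univ, true_and, Finset.insert_subset_iff]
          tauto
        · refine Finset.sum_congr ?_ fun _ _ => rfl
          ext Y
          simp only [Finset.mem_filter, Finset.mem_univ, true_and, Finset.disjoint_insert_right]
          tauto
      rw [hsplit]
      have e1 := C1_vol_insert s t X u huX
      have e2 := C1_excl s t X F u huX huF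
      have e3 := C1_incl s t X F u huX huF
      have p0 : 0 ≤ θ ^ vol s t X := pow_nonneg h0 _
      have q1 : θ ^ vol s t (insert u X) * 2 ^ C1k s t (insert u X) F ≤
          θ ^ vol s t X * (2 ^ C1k s t X F / 4) := by
        have r1 : (2 : ℝ) ^ C1k s t (insert u X) F * 4 ≤ 2 ^ (C1k s t X F + vol s t {u}) := by
          have : (4 : ℝ) = 2 ^ 2 := by norm_num
          rw [this, ← pow_add]
          exact pow_le_pow_right₀ (by norm_num) (by omega)
        have r2 : (2 * θ) ^ vol s t {u} ≤ 1 := pow_le_one₀ (by linarith) (by linarith)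
        rw [e1, pow_add]
        have r3 : θ ^ vol s t {u} * 2 ^ C1k s t (insert u X) F ≤ 2 ^ C1k s t X F / 4 := by
          have p1 : 0 ≤ θ ^ vol s t {u} := pow_nonneg h0 _
          calc θ ^ vol s t {u} * 2 ^ C1k s t (insert u X) F
              = θ ^ vol s t {u} * (2 ^ C1k s t (insert u X) F * 4) / 4 := by ring
            _ ≤ θ ^ vol s t {u} * 2 ^ (C1k s t X F + vol s t {u}) / 4 := by
                have := mul_le_mul_of_nonneg_left r1 p1
                linarith
            _ = (2 * θ) ^ vol s t {u} * 2 ^ C1k s t X F / 4 := by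
                rw [pow_add, mul_pow]
                ring
            _ ≤ 1 * 2 ^ C1k s t X F / 4 := by
                have := mul_le_mul_of_nonneg_right r2 (show (0 : ℝ) ≤ 2 ^ C1k s t X F by positivity)
                linarith
            _ = 2 ^ C1k s t X F / 4 := by ring
        calc θ ^ vol s t {u} * θ ^ vol s t X * 2 ^ C1k s t (insert u X) F
            = θ ^ vol s t X * (θ ^ vol s t {u} * 2 ^ C1k s t (insert u X) F) := by ring
          _ ≤ _ := mul_le_mul_of_nonneg_left r3 p0
      have q2 : θ ^ vol s t X * 2 ^ C1k s t X (insert u F) ≤ θ ^ vol s t X * (2 ^ C1k s t X F / 2) := by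
        apply mul_le_mul_of_nonneg_left _ p0
        have r1 : (2 : ℝ) ^ C1k s t X (insert u F) * 2 ≤ 2 ^ C1k s t X F := by
          rw [← pow_succ]
          exact pow_le_pow_right₀ (by norm_num) (by omega)
        linarith
      have q3 : 0 ≤ θ ^ vol s t X * 2 ^ C1k s t X F := by positivity
      linarith
    · push Not at hex
      have hno : ∀ e, ¬ ((s e ∈ X ∧ t e ∉ X ∧ t e ∉ F) ∨ (t e ∈ X ∧ s e ∉ X ∧ s e ∉ F)) := by
        intro e h
        have := hex e
        tauto
      have hsub : univ.filter (fun Y : Finset V => Con s t Y v ∧ X ⊆ Y ∧ Disjoint Y F) ⊆ {X} := by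
        intro Y hY
        rw [Finset.mem_filter] at hY
        rw [Finset.mem_singleton]
        exact C1_base s t X F Y v hv hno hY.2.1 hY.2.2.1 hY.2.2.2
      calc _ ≤ ∑ Y ∈ ({X} : Finset (Finset V)), θ ^ vol s t Y :=
            Finset.sum_le_sum_of_subset_of_nonneg hsub fun _ _ _ => pow_nonneg h0 _
        _ = θ ^ vol s t X * 1 := by simp
        _ ≤ _ := mul_le_mul_of_nonneg_left (one_le_pow₀ (by norm_num)) (pow_nonneg h0 _)

theorem animals (s t : E → V) (hd : ∀ v : V, 1 ≤ vol s t {v}) (θ : ℝ) (h0 : 0 ≤ θ)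
    (h1 : θ ≤ 1 / 4) (v : V) :
    ∑ X ∈ univ.filter (fun X : Finset V => Con s t X v), θ ^ vol s t X ≤ 1 := by
  have h := C1_main s t θ h0 h1 v _ {v} ∅ (Finset.mem_singleton_self v) le_rfl
  have e1 : univ.filter (fun X : Finset V => Con s t X v) =
      univ.filter (fun Y : Finset V => Con s t Y v ∧ {v} ⊆ Y ∧ Disjoint Y ∅) := by
    ext Y
    simp only [Finset.mem_filter, Finset.mem_univ, true_and, Finset.singleton_subset_iff,
      Finset.disjoint_empty_right, and_true]
    exact ⟨fun h => ⟨h, h.1⟩, fun h => h.1⟩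
  rw [e1]
  refine h.trans ?_
  have hk : C1k s t {v} ∅ ≤ vol s t {v} := by
    unfold C1k vol
    simp only [Finset.card_filter]
    rw [← Finset.sum_add_distrib]
    refine Finset.sum_le_sum fun e _ => ?_
    by_cases h1 : s e = v <;> by_cases h2 : t e = v <;> simp [h1, h2]
  have h2 : (2 : ℝ) ^ C1k s t {v} ∅ ≤ 2 ^ vol s t {v} := pow_le_pow_right₀ (by norm_num) hk
  calc θ ^ vol s t {v} * 2 ^ C1k s t {v} ∅ ≤ θ ^ vol s t {v} * 2 ^ vol s t {v} :=
        mul_le_mul_of_nonneg_left h2 (pow_nonneg h0 _)
    _ = (θ * 2) ^ vol s t {v} := by rw [mul_pow]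
    _ ≤ 1 := pow_le_one₀ (by linarith) (by linarith)

end Pool.Agent.LibFE4
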