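import Mathlib
import Pool.Agent.H69.FlowProof
import Pool.Agent.LibFE4.Defs

/-!
# Row K2: the sum over the edge sets for which `U` is closed

Plan.  The edge set is the disjoint union of `ins U`, `ins Uᶜ` and the `bd U` edges between.
An edge set `A` with `cl s t A U` is `A₁ ∪ A₂` with `A₁ ⊆ ins U`, `A₂ ⊆ ins Uᶜ` (bijection with
`A₁ = A ∩ ins U`, `A₂ = A ∩ ins Uᶜ`; e.g. `Finset.sum_bij'` with a product of powersets).
`kap (A₁ ∪ A₂) U = kap A₁ U` because for `u, v ∈ U` one has
`Quot.mk (rel (A₁ ∪ A₂)) u = Quot.mk _ v ↔ Quot.mk (rel A₁) u = Quot.mk _ v`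
(`kap_inter`): from `Quot.mk (rel A) u = Quot.mk _ v` get `Relation.EqvGen (rel A) u v`
(`Quot.eqvGen_exact`) and show by induction that then `u ∈ U ↔ v ∈ U` and
`u ∈ U → Quot.mk (rel A₁) u = Quot.mk (rel A₁) v`.
Finally `∑ A₂ ∈ F.powerset, z ^ |A₂| * (-1) ^ (|F| - |A₂|) = (z - 1) ^ |F|`
(`Finset.sum_pow_mul_eq_add_pow z (-1) F`).
-/

set_option autoImplicit false

namespace Pool.Agent.LibFE4

open Finset Pool.Agent.H69.Flow
open scoped Classical

variable {V E : Type} [Fintype V] [Fintype E]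

private lemma K2_gen (s t : E → V) {A : Finset E} {U : Finset V} (h : cl s t A U) {u v : V}
    (huv : Relation.EqvGen (rel s t A) u v) :
    (u ∈ U ↔ v ∈ U) ∧ (u ∈ U →
      Quot.mk (rel s t (A ∩ ins s t U)) u = Quot.mk (rel s t (A ∩ ins s t U)) v) := by
  induction huv with
  | rel a b hab =>
    obtain ⟨e, he, rfl, rfl⟩ := hab
    refine ⟨h e he, fun hu => Quot.sound ⟨e, ?_, rfl, rfl⟩⟩
    exact mem_inter.2 ⟨he, mem_filter.2 ⟨mem_univ _, hu, (h e he).1 hu⟩⟩
  | refl a => exact ⟨Iff.rfl, fun _ => rfl⟩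
  | symm a b _ ih => exact ⟨ih.1.symm, fun hb => (ih.2 (ih.1.2 hb)).symm⟩
  | trans a b c _ _ ih1 ih2 =>
    exact ⟨ih1.1.trans ih2.1, fun ha => (ih1.2 ha).trans (ih2.2 (ih1.1.1 ha))⟩

lemma quot_inter (s t : E → V) {A : Finset E} {U : Finset V} (h : cl s t A U) {u v : V}
    (hu : u ∈ U) (huv : Quot.mk (rel s t A) u = Quot.mk (rel s t A) v) :
    v ∈ U ∧ Quot.mk (rel s t (A ∩ ins s t U)) u = Quot.mk (rel s t (A ∩ ins s t U)) v := by
  have h1 := K2_gen s t h (Quot.eqvGen_exact huv)
  exact ⟨h1.1.1 hu, h1.2 hu⟩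

private lemma K2_card_image {α β : Type} (f : V → α) (g : V → β) (U : Finset V)
    (h : ∀ u ∈ U, ∀ v ∈ U, (f u = f v ↔ g u = g v)) : (U.image f).card = (U.image g).card := by
  induction U using Finset.induction_on with
  | empty => simp
  | insert a U ha ih =>
    have ih' := ih (fun u hu v hv => h u (mem_insert_of_mem hu) v (mem_insert_of_mem hv))
    rw [image_insert, image_insert]
    by_cases hc : f a ∈ U.image f
    · have hc' : g a ∈ U.image g := by
        obtain ⟨b, hb, hab⟩ := mem_image.1 hc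
        exact mem_image.2 ⟨b, hb, (h b (mem_insert_of_mem hb) a (mem_insert_self _ _)).1 hab⟩
      rw [insert_eq_of_mem hc, insert_eq_of_mem hc', ih']
    · have hc' : g a ∉ U.image g := by
        intro hg
        obtain ⟨b, hb, hab⟩ := mem_image.1 hg
        exact hc (mem_image.2 ⟨b, hb, (h b (mem_insert_of_mem hb) a (mem_insert_self _ _)).2 hab⟩)
      rw [card_insert_of_notMem hc, card_insert_of_notMem hc', ih']

lemma kap_inter (s t : E → V) {A : Finset E} {U : Finset V} (h : cl s t A U) :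
    kap s t A U = kap s t (A ∩ ins s t U) U := by
  refine K2_card_image _ _ U (fun u hu v hv => ⟨fun huv => (quot_inter s t h hu huv).2, ?_⟩)
  intro huv
  exact conn_mono s t Finset.inter_subset_left u v huv

private lemma K2_ins_disj (s t : E → V) (U : Finset V) : Disjoint (ins s t U) (ins s t Uᶜ) := by
  rw [Finset.disjoint_left]
  intro e he he'
  exact (mem_compl.1 (mem_filter.1 he').2.1) (mem_filter.1 he).2.1

lemma card_split (s t : E → V) (U : Finset V) :
    (ins s t U).card + bd s t U + (ins s t Uᶜ).card = Fintype.card E := by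
  have h1 : univ.filter (fun e => (s e ∈ U ↔ t e ∈ U)) = ins s t U ∪ ins s t Uᶜ := by
    ext e
    simp only [ins, mem_filter, mem_univ, true_and, mem_union, mem_compl]
    tauto
  have h2 := Finset.card_filter_add_card_filter_not (s := (univ : Finset E))
    (fun e => (s e ∈ U ↔ t e ∈ U))
  rw [h1, Finset.card_union_of_disjoint (K2_ins_disj s t U), Finset.card_univ] at h2
  unfold bd
  omega

theorem sum_edges (s t : E → V) (z y : ℂ) (U : Finset V) :
    ∑ A ∈ univ.filter (fun A : Finset E => cl s t A U), we z A * y ^ kap s t A U =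
      (z - 1) ^ (ins s t Uᶜ).card * ((-1) ^ bd s t U * Zs s t z y U) := by
  have h1 : (z - 1) ^ (ins s t Uᶜ).card =
      ∑ B ∈ (ins s t Uᶜ).powerset, z ^ B.card * (-1) ^ ((ins s t Uᶜ).card - B.card) := by
    rw [sub_eq_add_neg, Finset.sum_pow_mul_eq_add_pow]
  have h2 : (z - 1) ^ (ins s t Uᶜ).card * ((-1) ^ bd s t U * Zs s t z y U) =
      ∑ p ∈ (ins s t Uᶜ).powerset ×ˢ (ins s t U).powerset,
        (z ^ p.1.card * (-1) ^ ((ins s t Uᶜ).card - p.1.card)) *
        ((-1) ^ bd s t U * (z ^ p.2.card * (-1) ^ ((ins s t U).card - p.2.card) *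
          y ^ kap s t p.2 U)) := by
    rw [h1, Zs, Finset.mul_sum, Finset.sum_mul_sum, Finset.sum_product]
  rw [h2]
  refine Finset.sum_bij' (fun A _ => (A ∩ ins s t Uᶜ, A ∩ ins s t U)) (fun p _ => p.1 ∪ p.2)
    ?_ ?_ ?_ ?_ ?_
  · intro A _
    exact mem_product.2 ⟨mem_powerset.2 Finset.inter_subset_right,
      mem_powerset.2 Finset.inter_subset_right⟩
  · intro p hp
    obtain ⟨hp1, hp2⟩ := mem_product.1 hp
    refine mem_filter.2 ⟨mem_univ _, ?_⟩
    intro e he
    rcases mem_union.1 he with he | he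
    · have h3 := (mem_filter.1 (mem_powerset.1 hp1 he)).2
      exact iff_of_false (mem_compl.1 h3.1) (mem_compl.1 h3.2)
    · have h3 := (mem_filter.1 (mem_powerset.1 hp2 he)).2
      exact iff_of_true h3.1 h3.2
  · intro A hA
    have hc := (mem_filter.1 hA).2
    ext e
    simp only [mem_union, mem_inter]
    constructor
    · rintro (⟨h3, -⟩ | ⟨h3, -⟩) <;> exact h3
    · intro he
      by_cases hs : s e ∈ U
      · exact Or.inr ⟨he, mem_filter.2 ⟨mem_univ _, hs, (hc e he).1 hs⟩⟩
      · exact Or.inl ⟨he, mem_filter.2 ⟨mem_univ _, mem_compl.2 hs,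
          mem_compl.2 (fun h4 => hs ((hc e he).2 h4))⟩⟩
  · intro p hp
    obtain ⟨hp1, hp2⟩ := mem_product.1 hp
    have hd := K2_ins_disj s t U
    have e1 : (p.1 ∪ p.2) ∩ ins s t Uᶜ = p.1 := by
      ext e
      simp only [mem_inter, mem_union]
      constructor
      · rintro ⟨h3 | h3, h4⟩
        · exact h3
        · exact absurd h4 (Finset.disjoint_left.1 hd (mem_powerset.1 hp2 h3))
      · intro h3
        exact ⟨Or.inl h3, mem_powerset.1 hp1 h3⟩
    have e2 : (p.1 ∪ p.2) ∩ ins s t U = p.2 := by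
      ext e
      simp only [mem_inter, mem_union]
      constructor
      · rintro ⟨h3 | h3, h4⟩
        · exact absurd (mem_powerset.1 hp1 h3) (Finset.disjoint_left.1 hd h4)
        · exact h3
      · intro h3
        exact ⟨Or.inr h3, mem_powerset.1 hp2 h3⟩
    exact Prod.ext e1 e2
  · intro A hA
    have hc := (mem_filter.1 hA).2
    have hd := K2_ins_disj s t U
    have hA' : A = (A ∩ ins s t Uᶜ) ∪ (A ∩ ins s t U) := by
      ext e
      simp only [mem_union, mem_inter]
      constructor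
      · intro he
        by_cases hs : s e ∈ U
        · exact Or.inr ⟨he, mem_filter.2 ⟨mem_univ _, hs, (hc e he).1 hs⟩⟩
        · exact Or.inl ⟨he, mem_filter.2 ⟨mem_univ _, mem_compl.2 hs,
            mem_compl.2 (fun h4 => hs ((hc e he).2 h4))⟩⟩
      · rintro (⟨h3, -⟩ | ⟨h3, -⟩) <;> exact h3
    have hcard : A.card = (A ∩ ins s t Uᶜ).card + (A ∩ ins s t U).card := by
      conv_lhs => rw [hA']
      rw [Finset.card_union_of_disjoint]
      exact (hd.symm).mono Finset.inter_subset_right Finset.inter_subset_right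
    have h3 := card_split s t U
    have h4 : (A ∩ ins s t Uᶜ).card ≤ (ins s t Uᶜ).card := Finset.card_le_card Finset.inter_subset_right
    have h5 : (A ∩ ins s t U).card ≤ (ins s t U).card := Finset.card_le_card Finset.inter_subset_right
    have h6 : Fintype.card E - A.card = ((ins s t Uᶜ).card - (A ∩ ins s t Uᶜ).card) +
        (bd s t U + ((ins s t U).card - (A ∩ ins s t U).card)) := by omega
    rw [kap_inter s t hc]
    simp only [we]
    rw [h6, hcard, pow_add, pow_add, pow_add]
    ring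

end Pool.Agent.LibFE4
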