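import Mathlib
import Pool.Agent.LibFE4.K2

/-!
# Row K3: multiplicativity

Plan.  If there is no edge between the disjoint sets `X` and `Y` then
`ins (X ∪ Y) = ins X ∪ ins Y` (disjoint), `bd` is additive, and for `A ⊆ ins (X ∪ Y)`
the sets `X` and `Y` are closed under `A`, so
`kap A (X ∪ Y) = kap A X + kap A Y = kap (A ∩ ins X) X + kap (A ∩ ins Y) Y`
(the images of `X` and `Y` in the quotient are disjoint by `quot_inter`; then `kap_inter`).
Hence `Zs` of the union is the product (`powerset` of a disjoint union = product of powersets,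
e.g. `Finset.sum_bij'`).  `wt` follows.  `wt ∅ = 1` by `simp`.
-/

set_option autoImplicit false

namespace Pool.Agent.LibFE4

open Finset Pool.Agent.H69.Flow
open scoped Classical

variable {V E : Type} [Fintype V] [Fintype E]

/-- There is no edge between `X` and `Y`. -/
def Sep (s t : E → V) (X Y : Finset V) : Prop :=
  Disjoint X Y ∧ ∀ e, ¬ (s e ∈ X ∧ t e ∈ Y) ∧ ¬ (s e ∈ Y ∧ t e ∈ X)

private lemma K3_ins (s t : E → V) {X Y : Finset V} (h : Sep s t X Y) :
    ins s t (X ∪ Y) = ins s t X ∪ ins s t Y := by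
  ext e
  have h2 := h.2 e
  simp only [ins, mem_filter, mem_univ, true_and, mem_union]
  tauto

private lemma K3_disj (s t : E → V) {X Y : Finset V} (h : Sep s t X Y) :
    Disjoint (ins s t X) (ins s t Y) := by
  rw [Finset.disjoint_left]
  intro e he he'
  simp only [ins, mem_filter, mem_univ, true_and] at he he'
  exact Finset.disjoint_left.1 h.1 he.1 he'.1

private lemma K3_bd (s t : E → V) {X Y : Finset V} (h : Sep s t X Y) :
    bd s t (X ∪ Y) = bd s t X + bd s t Y := by
  unfold bd
  rw [← Finset.card_union_of_disjoint]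
  · congr 1
    ext e
    have h2 := h.2 e
    have h3 : s e ∈ X → s e ∉ Y := fun h' => Finset.disjoint_left.1 h.1 h'
    have h4 : t e ∈ X → t e ∉ Y := fun h' => Finset.disjoint_left.1 h.1 h'
    simp only [mem_filter, mem_univ, true_and, mem_union]
    tauto
  · rw [Finset.disjoint_left]
    intro e he he'
    have h2 := h.2 e
    have h3 : s e ∈ X → s e ∉ Y := fun h' => Finset.disjoint_left.1 h.1 h'
    have h4 : t e ∈ X → t e ∉ Y := fun h' => Finset.disjoint_left.1 h.1 h'
    simp only [mem_filter, mem_univ, true_and] at he he'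
    tauto

private lemma K3_cl_left (s t : E → V) {X Y : Finset V} (h : Sep s t X Y) {A : Finset E}
    (hA : A ⊆ ins s t (X ∪ Y)) : cl s t A X := by
  intro e he
  have h2 := h.2 e
  have h3 := hA he
  simp only [ins, mem_filter, mem_univ, true_and, mem_union] at h3
  tauto

private lemma K3_cl_right (s t : E → V) {X Y : Finset V} (h : Sep s t X Y) {A : Finset E}
    (hA : A ⊆ ins s t (X ∪ Y)) : cl s t A Y := by
  intro e he
  have h2 := h.2 e
  have h3 := hA he
  simp only [ins, mem_filter, mem_univ, true_and, mem_union] at h3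
  tauto

private lemma K3_kap (s t : E → V) {X Y : Finset V} (h : Sep s t X Y) {A : Finset E}
    (hA : A ⊆ ins s t (X ∪ Y)) :
    kap s t A (X ∪ Y) = kap s t (A ∩ ins s t X) X + kap s t (A ∩ ins s t Y) Y := by
  have hX := K3_cl_left s t h hA
  have hY := K3_cl_right s t h hA
  rw [← kap_inter s t hX, ← kap_inter s t hY]
  unfold kap
  rw [Finset.image_union, Finset.card_union_of_disjoint]
  rw [Finset.disjoint_left]
  intro q hq hq'
  obtain ⟨u, hu, rfl⟩ := Finset.mem_image.1 hq
  obtain ⟨v, hv, hvu⟩ := Finset.mem_image.1 hq'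
  have := (quot_inter s t hX hu hvu.symm).1
  exact Finset.disjoint_left.1 h.1 this hv

theorem Zs_union (s t : E → V) (z y : ℂ) (X Y : Finset V) (h : Sep s t X Y) :
    Zs s t z y (X ∪ Y) = Zs s t z y X * Zs s t z y Y := by
  have hins := K3_ins s t h
  have hdis := K3_disj s t h
  unfold Zs
  rw [Finset.sum_mul_sum, ← Finset.sum_product']
  have hcap1 : ∀ P ⊆ ins s t X, ∀ Q ⊆ ins s t Y, (P ∪ Q) ∩ ins s t X = P := by
    intro P hP Q hQ
    ext e
    rw [Finset.mem_inter, Finset.mem_union]
    constructor
    · rintro ⟨h1 | h1, h2⟩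
      · exact h1
      · exact absurd (hQ h1) (Finset.disjoint_left.1 hdis h2)
    · intro h1
      exact ⟨Or.inl h1, hP h1⟩
  have hcap2 : ∀ P ⊆ ins s t X, ∀ Q ⊆ ins s t Y, (P ∪ Q) ∩ ins s t Y = Q := by
    intro P hP Q hQ
    ext e
    rw [Finset.mem_inter, Finset.mem_union]
    constructor
    · rintro ⟨h1 | h1, h2⟩
      · exact absurd h2 (Finset.disjoint_left.1 hdis (hP h1))
      · exact h1
    · intro h1
      exact ⟨Or.inr h1, hQ h1⟩
  refine Finset.sum_bij' (fun A _ => (A ∩ ins s t X, A ∩ ins s t Y)) (fun p _ => p.1 ∪ p.2)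
    ?_ ?_ ?_ ?_ ?_
  · intro A _
    rw [Finset.mem_product, Finset.mem_powerset, Finset.mem_powerset]
    exact ⟨Finset.inter_subset_right, Finset.inter_subset_right⟩
  · intro p hp
    rw [Finset.mem_product, Finset.mem_powerset, Finset.mem_powerset] at hp
    rw [Finset.mem_powerset, hins]
    exact Finset.union_subset_union hp.1 hp.2
  · intro A hA
    rw [Finset.mem_powerset, hins] at hA
    show A ∩ ins s t X ∪ A ∩ ins s t Y = A
    rw [← Finset.inter_union_distrib_left]
    exact Finset.inter_eq_left.2 hA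
  · intro p hp
    rw [Finset.mem_product, Finset.mem_powerset, Finset.mem_powerset] at hp
    exact Prod.ext (hcap1 _ hp.1 _ hp.2) (hcap2 _ hp.1 _ hp.2)
  · intro A hA
    rw [Finset.mem_powerset] at hA
    have hk := K3_kap s t h hA
    rw [hk]
    have hA' : A ∩ ins s t X ∪ A ∩ ins s t Y = A := by
      rw [← Finset.inter_union_distrib_left, ← hins]
      exact Finset.inter_eq_left.2 hA
    have hd : Disjoint (A ∩ ins s t X) (A ∩ ins s t Y) :=
      Disjoint.mono Finset.inter_subset_right Finset.inter_subset_right hdis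
    have hc : A.card = (A ∩ ins s t X).card + (A ∩ ins s t Y).card := by
      rw [← Finset.card_union_of_disjoint hd, hA']
    have hci : (ins s t (X ∪ Y)).card = (ins s t X).card + (ins s t Y).card := by
      rw [hins, Finset.card_union_of_disjoint hdis]
    have h1 : (A ∩ ins s t X).card ≤ (ins s t X).card :=
      Finset.card_le_card Finset.inter_subset_right
    have h2 : (A ∩ ins s t Y).card ≤ (ins s t Y).card :=
      Finset.card_le_card Finset.inter_subset_right
    have h3 : (ins s t (X ∪ Y)).card - A.card =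
        ((ins s t X).card - (A ∩ ins s t X).card) + ((ins s t Y).card - (A ∩ ins s t Y).card) := by
      omega
    rw [h3]
    show z ^ A.card * _ * _ = _
    rw [hc, pow_add, pow_add, pow_add]
    ring

theorem wt_union (s t : E → V) (z : ℂ) (X Y : Finset V) (h : Sep s t X Y) :
    wt s t z (X ∪ Y) = wt s t z X * wt s t z Y := by
  unfold wt
  rw [Zs_union s t z (z - 1) X Y h, K3_bd s t h, K3_ins s t h,
    Finset.card_union_of_disjoint (K3_disj s t h)]
  have h1 : (ins s t X).card + (ins s t Y).card + (bd s t X + bd s t Y) =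
      ((ins s t X).card + bd s t X) + ((ins s t Y).card + bd s t Y) := by omega
  rw [h1, pow_add, pow_add ((z - 1)⁻¹) ((ins s t X).card + bd s t X)]
  ring

theorem wt_empty (s t : E → V) (z : ℂ) : wt s t z ∅ = 1 := by
  have h1 : ins s t (∅ : Finset V) = ∅ := by
    ext e
    simp [ins]
  have h2 : bd s t (∅ : Finset V) = 0 := by
    simp [bd]
  have h3 : kap s t ∅ (∅ : Finset V) = 0 := by
    simp [kap]
  unfold wt Zs
  rw [h1, h2]
  simp [h3]

end Pool.Agent.LibFE4
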