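import Mathlib
import Pool.Agent.LibFE4.K3

/-!
# Row D1: the recursion for the polymer partition function

Plan.  Split the sets `U ⊆ W` with `small U` according to `v ∈ U`.  Those without `v` give
`Phi (W.erase v)`.  If `v ∈ U` put `X = comp U v` and `U' = U \ X`.  Then `v ∈ X ⊆ W`,
`Con X v`, `2 * vol X ≤ vol univ` (by `small`), `U' ⊆ W \ nb X` (an edge between `X` and `U'`
would have both ends in `U`, hence join them), `small U'` (the components of `U'` are the other
components of `U`: for `u ∈ U'` one has `comp U' u = comp U u`), `Sep X U'`.  Conversely, if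
`Con X v`, `X ⊆ W`, `2 * vol X ≤ vol univ`, `U' ⊆ W \ nb X`, `small U'`, then `Sep X U'`,
`comp (X ∪ U') v = X` and `X ∪ U'` is small.  So `∑` over these `U` is the double sum, by
`wt_union`.  (`Finset.sum_sigma'`/`sum_bij'`.)  Useful lemma: if `Sep X Y` and `u ∈ X` then
`comp (X ∪ Y) u = comp X u`: use `quot_inter` (row K2) with `A = ins (X ∪ Y)`, `U = X`:
`ins (X ∪ Y) ∩ ins X = ins X`.
-/

set_option autoImplicit false

namespace Pool.Agent.LibFE4

open Finset Pool.Agent.H69.Flow
open scoped Classical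

variable {V E : Type} [Fintype V] [Fintype E]

private lemma d1_mono (s t : E → V) {A B : Finset E} (hAB : A ⊆ B) {u v : V}
    (h : Quot.mk (rel s t A) u = Quot.mk (rel s t A) v) :
    Quot.mk (rel s t B) u = Quot.mk (rel s t B) v := by
  have h2 := Quot.eqvGen_exact h
  clear h
  induction h2 with
  | rel a b hab =>
    obtain ⟨e, he, h1, h2⟩ := hab
    exact Quot.sound ⟨e, hAB he, h1, h2⟩
  | refl a => rfl
  | symm a b _ ih => exact ih.symm
  | trans a b c _ _ ih1 ih2 => exact ih1.trans ih2

private lemma d1_ins_union (s t : E → V) (X Y : Finset V) :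
    ins s t X ⊆ ins s t (X ∪ Y) := by
  intro e he
  simp only [ins, mem_filter, mem_univ, true_and, mem_union] at he ⊢
  exact ⟨Or.inl he.1, Or.inl he.2⟩

private lemma d1_inter (s t : E → V) (X Y : Finset V) :
    ins s t (X ∪ Y) ∩ ins s t X = ins s t X :=
  inter_eq_right.mpr (d1_ins_union s t X Y)

private lemma d1_cl (s t : E → V) {X Y : Finset V} (h : Sep s t X Y) :
    cl s t (ins s t (X ∪ Y)) X := by
  intro e he
  simp only [ins, mem_filter, mem_univ, true_and, mem_union] at he
  have h2 := h.2 e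
  constructor
  · intro hs
    rcases he.2 with h3 | h3
    · exact h3
    · exact absurd ⟨hs, h3⟩ h2.1
  · intro ht
    rcases he.1 with h3 | h3
    · exact h3
    · exact absurd ⟨h3, ht⟩ h2.2

theorem comp_union (s t : E → V) {X Y : Finset V} (h : Sep s t X Y) {u : V} (hu : u ∈ X) :
    comp s t (X ∪ Y) u = comp s t X u := by
  ext w
  simp only [comp, mem_filter, mem_union]
  constructor
  · rintro ⟨_, h2⟩
    have h3 := quot_inter s t (d1_cl s t h) hu h2.symm
    rw [d1_inter] at h3
    exact ⟨h3.1, h3.2.symm⟩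
  · rintro ⟨h1, h2⟩
    exact ⟨Or.inl h1, d1_mono s t (d1_ins_union s t X Y) h2⟩

private lemma d1_sep_symm (s t : E → V) {X Y : Finset V} (h : Sep s t X Y) : Sep s t Y X :=
  ⟨h.1.symm, fun e => ⟨(h.2 e).2, (h.2 e).1⟩⟩

private lemma d1_comp_union' (s t : E → V) {X Y : Finset V} (h : Sep s t X Y) {u : V}
    (hu : u ∈ Y) : comp s t (X ∪ Y) u = comp s t Y u := by
  rw [union_comm]
  exact comp_union s t (d1_sep_symm s t h) hu

private lemma d1_comp_sub (s t : E → V) (U : Finset V) (v : V) : comp s t U v ⊆ U :=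
  filter_subset _ _

private lemma d1_mem_comp (s t : E → V) {U : Finset V} {v : V} (hv : v ∈ U) :
    v ∈ comp s t U v := by
  simp [comp, hv]

private lemma d1_sep_comp (s t : E → V) (U : Finset V) (v : V) :
    Sep s t (comp s t U v) (U \ comp s t U v) := by
  refine ⟨disjoint_sdiff, fun e => ?_⟩
  have key : s e ∈ U → t e ∈ U → (s e ∈ comp s t U v ↔ t e ∈ comp s t U v) := by
    intro hs ht
    have h1 : Quot.mk (rel s t (ins s t U)) (s e) = Quot.mk (rel s t (ins s t U)) (t e) := by
      apply Quot.sound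
      exact ⟨e, by simp [ins, hs, ht], rfl, rfl⟩
    simp only [comp, mem_filter, hs, ht, true_and, h1]
  constructor
  · rintro ⟨h1, h2⟩
    rw [mem_sdiff] at h2
    exact h2.2 ((key (d1_comp_sub s t U v h1) h2.1).1 h1)
  · rintro ⟨h1, h2⟩
    rw [mem_sdiff] at h1
    exact h1.2 ((key h1.1 (d1_comp_sub s t U v h2)).2 h2)

private lemma d1_union (s t : E → V) (U : Finset V) (v : V) :
    comp s t U v ∪ (U \ comp s t U v) = U :=
  union_sdiff_of_subset (d1_comp_sub s t U v)

private lemma d1_con (s t : E → V) {U : Finset V} {v : V} (hv : v ∈ U) :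
    Con s t (comp s t U v) v := by
  refine ⟨d1_mem_comp s t hv, ?_⟩
  have h := comp_union s t (d1_sep_comp s t U v) (d1_mem_comp s t hv)
  rw [d1_union] at h
  exact h.symm

private lemma d1_comp_eq (s t : E → V) {X : Finset V} {v u : V} (h : Con s t X v)
    (hu : u ∈ X) : comp s t X u = X := by
  have h1 : u ∈ comp s t X v := by rw [h.2]; exact hu
  simp only [comp, mem_filter] at h1
  have h2 := h.2
  unfold comp at h2 ⊢
  rw [h1.2]
  exact h2

private lemma d1_sep_nb (s t : E → V) {W X U : Finset V} (h : U ⊆ W \ nb s t X) :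
    Sep s t X U := by
  have h0 : ∀ u ∈ U, u ∉ nb s t X := fun u hu => (mem_sdiff.1 (h hu)).2
  refine ⟨?_, fun e => ⟨?_, ?_⟩⟩
  · rw [disjoint_left]
    intro a ha hb
    apply h0 a hb
    simp [nb, ha]
  · rintro ⟨h1, h2⟩
    apply h0 _ h2
    simp only [nb, mem_filter, mem_univ, true_and]
    exact Or.inr ⟨e, Or.inl ⟨h1, rfl⟩⟩
  · rintro ⟨h1, h2⟩
    apply h0 _ h1
    simp only [nb, mem_filter, mem_univ, true_and]
    exact Or.inr ⟨e, Or.inr ⟨h2, rfl⟩⟩

private lemma d1_small_sdiff (s t : E → V) {U : Finset V} (v : V) (h : small s t U) :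
    small s t (U \ comp s t U v) := by
  intro u hu
  have h1 := d1_comp_union' s t (d1_sep_comp s t U v) hu
  rw [d1_union] at h1
  rw [← h1]
  exact h u (mem_sdiff.1 hu).1

private lemma d1_small_union (s t : E → V) {X U : Finset V} {v : V} (hs : Sep s t X U)
    (hX : Con s t X v) (hv : 2 * vol s t X ≤ vol s t univ) (hU : small s t U) :
    small s t (X ∪ U) := by
  intro u hu
  rcases mem_union.1 hu with h | h
  · rw [comp_union s t hs h, d1_comp_eq s t hX h]
    exact hv
  · rw [d1_comp_union' s t hs h]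
    exact hU u h

private lemma d1_sub (s t : E → V) {U W : Finset V} {v : V} (hU : U ⊆ W) :
    U \ comp s t U v ⊆ W \ nb s t (comp s t U v) := by
  intro u hu
  have hs := d1_sep_comp s t U v
  rw [mem_sdiff]
  refine ⟨hU (mem_sdiff.1 hu).1, ?_⟩
  intro hn
  simp only [nb, mem_filter, mem_univ, true_and] at hn
  rcases hn with h | ⟨e, h | h⟩
  · exact (mem_sdiff.1 hu).2 h
  · exact (hs.2 e).1 ⟨h.1, by rw [h.2]; exact hu⟩
  · exact (hs.2 e).2 ⟨by rw [h.2]; exact hu, h.1⟩

theorem Phi_rec (s t : E → V) (z : ℂ) (W : Finset V) (v : V) (hv : v ∈ W) :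
    Phi s t z W = Phi s t z (W.erase v) +
      ∑ X ∈ W.powerset.filter (fun X => Con s t X v ∧ 2 * vol s t X ≤ vol s t univ),
        wt s t z X * Phi s t z (W \ nb s t X) := by
  have h1 : Phi s t z W =
      ∑ U ∈ (W.powerset.filter (fun U => small s t U)).filter (fun U => ¬ v ∈ U), wt s t z U +
      ∑ U ∈ (W.powerset.filter (fun U => small s t U)).filter (fun U => v ∈ U), wt s t z U := by
    rw [add_comm]
    exact (sum_filter_add_sum_filter_not _ _ _).symm
  rw [h1]
  congr 1
  · unfold Phi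
    apply sum_congr _ (fun _ _ => rfl)
    ext U
    simp only [mem_filter, mem_powerset]
    constructor
    · rintro ⟨⟨h2, h3⟩, h4⟩
      exact ⟨subset_erase.2 ⟨h2, h4⟩, h3⟩
    · rintro ⟨h2, h3⟩
      rw [subset_erase] at h2
      exact ⟨⟨h2.1, h3⟩, h2.2⟩
  · unfold Phi
    simp_rw [mul_sum]
    rw [sum_sigma']
    refine sum_bij' (fun U _ => (⟨comp s t U v, U \ comp s t U v⟩ : (_ : Finset V) × Finset V))
      (fun p _ => p.1 ∪ p.2) ?_ ?_ ?_ ?_ ?_
    · intro U hU
      simp only [mem_filter, mem_powerset] at hU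
      simp only [mem_sigma, mem_filter, mem_powerset]
      refine ⟨⟨(d1_comp_sub s t U v).trans hU.1.1, d1_con s t hU.2, hU.1.2 v hU.2⟩,
        d1_sub s t hU.1.1, d1_small_sdiff s t v hU.1.2⟩
    · rintro ⟨X, U⟩ hp
      simp only [mem_sigma, mem_filter, mem_powerset] at hp
      obtain ⟨⟨h2, h3, h4⟩, h5, h6⟩ := hp
      have hs := d1_sep_nb s t h5
      simp only [mem_filter, mem_powerset]
      refine ⟨⟨union_subset h2 (h5.trans sdiff_subset), d1_small_union s t hs h3 h4 h6⟩,
        mem_union_left _ h3.1⟩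
    · intro U hU
      exact d1_union s t U v
    · rintro ⟨X, U⟩ hp
      simp only [mem_sigma, mem_filter, mem_powerset] at hp
      obtain ⟨⟨h2, h3, h4⟩, h5, h6⟩ := hp
      have hs := d1_sep_nb s t h5
      have h7 : comp s t (X ∪ U) v = X := by
        rw [comp_union s t hs h3.1, h3.2]
      simp only [h7]
      rw [union_sdiff_cancel_left hs.1]
    · intro U hU
      have h2 := wt_union s t z _ _ (d1_sep_comp s t U v)
      rw [d1_union] at h2
      exact h2

end Pool.Agent.LibFE4
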