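import Mathlib
import Pool.Agent.LibFE4.D1

/-!
# Row D2: the polymer partition function is not small

Plan.  Strong induction on `|W|`: for all `v ∈ W`,
`‖Phi W - Phi (W.erase v)‖ ≤ ‖Phi (W.erase v)‖ / 2`.  Hence `‖Phi (W.erase v)‖ ≤ 2 * ‖Phi W‖`.
For `v ∈ X ⊆ W` (with `Con X v`) the set `W \ nb X` is contained in `W.erase v` and arises from
it by removing at most `|nb X|` elements one by one, so
`‖Phi (W \ nb X)‖ ≤ 2 ^ |nb X| * ‖Phi (W.erase v)‖` by the induction hypothesis.
Insert this in `Phi_rec` and use `H` (the sum over `X ⊆ W` is at most the sum over all `X`;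
all terms are nonnegative).  Conclusion: `(1/2) ^ |W| ≤ ‖Phi W‖` by induction, `Phi ∅ = 1`.
-/

set_option autoImplicit false

namespace Pool.Agent.LibFE4

open Finset Pool.Agent.H69.Flow
open scoped Classical

variable {V E : Type} [Fintype V] [Fintype E]

theorem Phi_empty (s t : E → V) (z : ℂ) : Phi s t z ∅ = 1 := by
  have h1 : (∅ : Finset V).powerset.filter (fun U => small s t U) = {∅} := by
    rw [powerset_empty, filter_singleton, if_pos]
    intro v hv
    exact absurd hv (notMem_empty v)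
  have h2 : bd s t (∅ : Finset V) = 0 := by
    unfold bd
    rw [card_eq_zero, filter_eq_empty_iff]
    intro e _
    simp
  have h3 : ins s t (∅ : Finset V) = ∅ := by
    unfold ins
    rw [filter_eq_empty_iff]
    intro e _
    simp
  have h4 : Zs s t z (z - 1) (∅ : Finset V) = 1 := by
    unfold Zs
    rw [h3, powerset_empty, sum_singleton]
    simp [kap]
  unfold Phi
  rw [h1, sum_singleton]
  unfold wt
  rw [h2, h3, h4]
  simp

private theorem D2_half (s t : E → V) (z : ℂ) (W : Finset V) (v : V)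
    (h : ‖Phi s t z W - Phi s t z (W.erase v)‖ ≤ ‖Phi s t z (W.erase v)‖ / 2) :
    ‖Phi s t z (W.erase v)‖ ≤ 2 * ‖Phi s t z W‖ := by
  have h1 : ‖Phi s t z (W.erase v)‖ ≤ ‖Phi s t z W‖ + ‖Phi s t z W - Phi s t z (W.erase v)‖ := by
    have h2 := norm_sub_le (Phi s t z W) (Phi s t z W - Phi s t z (W.erase v))
    rwa [sub_sub_cancel] at h2
  linarith

private theorem D2_down (s t : E → V) (z : ℂ) (S : Finset V)
    (h : ∀ T ⊆ S, ∀ u ∈ T, ‖Phi s t z (T.erase u)‖ ≤ 2 * ‖Phi s t z T‖) :
    ∀ (k : ℕ) (T : Finset V), T ⊆ S → (S \ T).card = k →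
      ‖Phi s t z T‖ ≤ 2 ^ k * ‖Phi s t z S‖ := by
  intro k
  induction k with
  | zero =>
    intro T hT hk
    rw [card_eq_zero, sdiff_eq_empty_iff_subset] at hk
    rw [subset_antisymm hT hk, pow_zero, one_mul]
  | succ k ih =>
    intro T hT hk
    have hne : (S \ T).Nonempty := by
      rw [← card_pos]
      omega
    obtain ⟨u, hu⟩ := hne
    rw [mem_sdiff] at hu
    have h1 : insert u T ⊆ S := insert_subset hu.1 hT
    have h2 : (S \ insert u T).card = k := by
      have h3 : S \ insert u T = (S \ T).erase u := by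
        ext x
        simp only [mem_sdiff, mem_insert, mem_erase]
        tauto
      rw [h3, card_erase_of_mem (mem_sdiff.2 hu), hk]
      rfl
    have h4 := ih (insert u T) h1 h2
    have h5 := h (insert u T) h1 u (mem_insert_self u T)
    rw [erase_insert hu.2] at h5
    calc ‖Phi s t z T‖ ≤ 2 * ‖Phi s t z (insert u T)‖ := h5
      _ ≤ 2 * (2 ^ k * ‖Phi s t z S‖) := by linarith
      _ = 2 ^ (k + 1) * ‖Phi s t z S‖ := by ring

private theorem D2_step (s t : E → V) (z : ℂ)
    (H : ∀ v : V, ∑ X ∈ univ.filter (fun X : Finset V => Con s t X v ∧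
      2 * vol s t X ≤ vol s t univ), ‖wt s t z X‖ * 2 ^ (nb s t X).card ≤ 1 / 2) :
    ∀ (n : ℕ) (W : Finset V), W.card = n → ∀ v ∈ W,
      ‖Phi s t z W - Phi s t z (W.erase v)‖ ≤ ‖Phi s t z (W.erase v)‖ / 2 := by
  intro n
  induction n using Nat.strong_induction_on with
  | _ n ih =>
    intro W hW v hv
    have hcard : (W.erase v).card < n := by
      rw [← hW]
      exact card_erase_lt_of_mem hv
    have hdown : ∀ T ⊆ W.erase v, ∀ u ∈ T, ‖Phi s t z (T.erase u)‖ ≤ 2 * ‖Phi s t z T‖ := by
      intro T hT u hu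
      exact D2_half s t z T u (ih T.card (lt_of_le_of_lt (card_le_card hT) hcard) T rfl u hu)
    rw [Phi_rec s t z W v hv, add_sub_cancel_left]
    refine (norm_sum_le _ _).trans ?_
    have h1 : ∀ X ∈ W.powerset.filter (fun X => Con s t X v ∧ 2 * vol s t X ≤ vol s t univ),
        ‖wt s t z X * Phi s t z (W \ nb s t X)‖ ≤
          (‖wt s t z X‖ * 2 ^ (nb s t X).card) * ‖Phi s t z (W.erase v)‖ := by
      intro X hX
      rw [mem_filter, mem_powerset] at hX
      obtain ⟨hXW, ⟨hvX, _⟩, _⟩ := hX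
      have hvn : v ∈ nb s t X := by
        unfold nb
        rw [mem_filter]
        exact ⟨mem_univ v, Or.inl hvX⟩
      have hsub : W \ nb s t X ⊆ W.erase v := by
        intro x hx
        rw [mem_sdiff] at hx
        rw [mem_erase]
        refine ⟨?_, hx.1⟩
        rintro rfl
        exact hx.2 hvn
      have h2 := D2_down s t z (W.erase v) hdown _ (W \ nb s t X) hsub rfl
      have h3 : (W.erase v \ (W \ nb s t X)).card ≤ (nb s t X).card := by
        refine card_le_card ?_
        intro x hx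
        rw [mem_sdiff, mem_sdiff, mem_erase] at hx
        by_contra hn
        exact hx.2 ⟨hx.1.2, hn⟩
      have h4 : (2 : ℝ) ^ (W.erase v \ (W \ nb s t X)).card ≤ 2 ^ (nb s t X).card :=
        pow_le_pow_right₀ (by norm_num) h3
      rw [norm_mul, mul_assoc]
      refine mul_le_mul_of_nonneg_left ?_ (norm_nonneg _)
      exact h2.trans (mul_le_mul_of_nonneg_right h4 (norm_nonneg _))
    refine (sum_le_sum h1).trans ?_
    rw [← sum_mul]
    have h5 : ∑ X ∈ W.powerset.filter (fun X => Con s t X v ∧ 2 * vol s t X ≤ vol s t univ),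
        ‖wt s t z X‖ * 2 ^ (nb s t X).card ≤ 1 / 2 := by
      refine le_trans (sum_le_sum_of_subset_of_nonneg ?_ fun X _ _ => by positivity) (H v)
      intro X hX
      rw [mem_filter] at hX ⊢
      exact ⟨mem_univ X, hX.2⟩
    calc _ ≤ 1 / 2 * ‖Phi s t z (W.erase v)‖ := mul_le_mul_of_nonneg_right h5 (norm_nonneg _)
      _ = ‖Phi s t z (W.erase v)‖ / 2 := by ring

theorem Phi_lower (s t : E → V) (z : ℂ)
    (H : ∀ v : V, ∑ X ∈ univ.filter (fun X : Finset V => Con s t X v ∧
      2 * vol s t X ≤ vol s t univ), ‖wt s t z X‖ * 2 ^ (nb s t X).card ≤ 1 / 2)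
    (W : Finset V) : (1 / 2 : ℝ) ^ W.card ≤ ‖Phi s t z W‖ := by
  have key : ∀ (n : ℕ) (W : Finset V), W.card = n → (1 / 2 : ℝ) ^ n ≤ ‖Phi s t z W‖ := by
    intro n
    induction n with
    | zero =>
      intro W hW
      rw [card_eq_zero] at hW
      rw [hW, Phi_empty]
      simp
    | succ n ih =>
      intro W hW
      have hne : W.Nonempty := by
        rw [← card_pos]
        omega
      obtain ⟨v, hv⟩ := hne
      have h1 := D2_half s t z W v (D2_step s t z H _ W rfl v hv)
      have h2 := ih (W.erase v) (by rw [card_erase_of_mem hv, hW]; rfl)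
      rw [pow_succ]
      linarith
  exact key _ W rfl

end Pool.Agent.LibFE4
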