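import Mathlib
import Pool.Agent.H69.FlowProof
import Pool.Agent.LibFE4.Defs

/-!
# Row G1: a bridge makes the flow polynomial zero

Plan.  Let `e` be the only edge with exactly one end in `S`.  Pair the edge sets `A` without `e`
with `insert e A` (`Finset.sum_involution` or `Finset.sum_powerset_insert`-like splitting, cf.
`zp_del_con` in H69/FlowProof): `s e` and `t e` lie in different components of `(V, A)`, since
`S` is closed under the edges of `A` (all of them have both ends or no end in `S`), so
`comps (insert e A) + 1 = comps A` (`comps_insert_not_conn`), the exponents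
`A.card + comps A - |V|` agree and the signs are opposite.
-/

set_option autoImplicit false

namespace Pool.Agent.LibFE4

open Finset Pool.Agent.H69.Flow
open scoped Classical

theorem fp_bridge {V E : Type} [Fintype V] [Fintype E] (s t : E → V) (S : Finset V)
    (h : bd s t S = 1) : fp s t = 0 := by
  unfold bd at h
  obtain ⟨e, he⟩ := Finset.card_eq_one.1 h
  have heS : ¬ (s e ∈ S ↔ t e ∈ S) := by
    have h1 : e ∈ (univ.filter (fun e => ¬ (s e ∈ S ↔ t e ∈ S)) : Finset E) := by
      rw [he]
      exact mem_singleton_self e
    exact (mem_filter.1 h1).2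
  have hoth : ∀ f : E, f ≠ e → (s f ∈ S ↔ t f ∈ S) := by
    intro f hf
    by_contra hcon
    have h1 : f ∈ (univ.filter (fun e => ¬ (s e ∈ S ↔ t e ∈ S)) : Finset E) :=
      mem_filter.2 ⟨mem_univ f, hcon⟩
    rw [he, mem_singleton] at h1
    exact hf h1
  have hne : Quot.mk (rel s t (univ.erase e)) (s e) ≠ Quot.mk (rel s t (univ.erase e)) (t e) := by
    intro hq
    have hl := congrArg (Quot.lift (fun v : V => (v ∈ S : Prop)) (by
      rintro a b ⟨f, hf, hf1, hf2⟩
      have h2 := hoth f (Finset.mem_erase.1 hf).1
      rw [hf1, hf2] at h2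
      exact propext h2)) hq
    exact heS (iff_of_eq hl)
  have hz : zp s t = 0 := by
    rw [zp_del_con s t e, sub_eq_zero, zm_formula, zm_formula, mul_sum]
    apply sum_congr rfl
    intro B hB
    rw [mem_powerset] at hB
    have h1 : Quot.mk (rel s t B) (s e) ≠ Quot.mk (rel s t B) (t e) :=
      fun h => hne (conn_mono s t hB _ _ h)
    have h2 := comps_insert_not_conn s t B e h1
    have h3 : {e} ∪ B = insert e B := rfl
    rw [empty_union, h3, ← h2, ← add_assoc, pow_succ]
    ring
  rw [zp_eq] at hz
  exact (mul_eq_zero.1 hz).resolve_left (pow_ne_zero _ Polynomial.X_ne_zero)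

end Pool.Agent.LibFE4
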