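import Mathlib
import Pool.Agent.H69.FlowProof
import Pool.Agent.LibFE4.G1

/-!
# Row G2: contraction of an edge of a 2-edge-cut

`V' = Quot (rel s t {e})`, `E' = {f // f ≠ e}`, `s' f = Quot.mk _ (s f)`, `t' f = Quot.mk _ (t f)`,
where `e` is one of the two edges with exactly one end in `S`.

Plan.  (1) `fp`: deletion-contraction (`zp_del_con`, `zm_eq_zp`, `comps_minor` in
H69/FlowProof, or directly as in G1): `fp s t = fp s' t' - fp (G - e)` and `G - e` has the bridge
`e'` (the other edge), so `fp (G - e) = 0` by `fp_bridge`; work with `X ^ |V| * fp` and cancel,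
or compare the sums term by term (`|V'| + 1 = |V|`).
(2) `Cond`: for `S' : Finset V'` let `P` be its preimage in `V`.  Then `bd s' t' S' = bd s t P`
(the edge `e` has both or no end in `P`) and `vol s t P = vol s' t' S' + 2` if `e` has its ends in
`P`, `vol s t P = vol s' t' S'` otherwise, `vol s t univ = vol s' t' univ + 2`.
If `2 * vol P ≤ vol univ` use the hypothesis for `P`; otherwise use it for `Pᶜ`
(`bd Pᶜ = bd P`, `vol Pᶜ = vol univ - vol P`, and `vol univ + 2 ≥ 2 * vol P`).
-/

set_option autoImplicit false

namespace Pool.Agent.LibFE4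

open Finset Pool.Agent.H69.Flow
open scoped Classical

/-- Every set with at most half of the volume has at least `ε` times its volume boundary edges. -/
def Cond {V E : Type} [Fintype V] [Fintype E] (ε : ℝ) (s t : E → V) : Prop :=
  ∀ S : Finset V, 2 * vol s t S ≤ vol s t univ → ε * (vol s t S : ℝ) ≤ bd s t S

/-- Two vertices on different sides of a cut without edges of `A` are not connected. -/
private theorem G2_sep {V E : Type} (s t : E → V) (S : Finset V) (A : Finset E)
    (hA : ∀ f ∈ A, (s f ∈ S ↔ t f ∈ S)) (u v : V) (huv : ¬ (u ∈ S ↔ v ∈ S)) :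
    Quot.mk (rel s t A) u ≠ Quot.mk (rel s t A) v := by
  intro h
  apply huv
  have h1 : ∀ a b : V, rel s t A a b → (a ∈ S) = (b ∈ S) := by
    rintro a b ⟨f, hf, rfl, rfl⟩
    exact propext (hA f hf)
  have h2 := congrArg (Quot.lift (fun w : V => w ∈ S) h1) h
  exact iff_of_eq h2

/-- The polynomial of `G - e` is zero, if `G - e` has a bridge `e'`. -/
private theorem G2_zero {V E : Type} [Fintype V] [Fintype E] (s t : E → V) (S : Finset V)
    (F : Finset E) (e' : E) (he' : e' ∈ F) (hcr : ¬ (s e' ∈ S ↔ t e' ∈ S))
    (hF : ∀ f ∈ F, f ≠ e' → (s f ∈ S ↔ t f ∈ S)) : zm s t ∅ F = 0 := by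
  have h1 : F = insert e' (F.erase e') := (insert_erase he').symm
  rw [zm_formula, h1, sum_powerset_insert (notMem_erase e' F), ← sum_add_distrib]
  apply sum_eq_zero
  intro B hB
  rw [mem_powerset] at hB
  have h2 : e' ∉ B := fun h => notMem_erase e' F (hB h)
  have h3 : Quot.mk (rel s t B) (s e') ≠ Quot.mk (rel s t B) (t e') := by
    apply G2_sep s t S B _ _ _ hcr
    intro f hf
    have h4 := hB hf
    rw [mem_erase] at h4
    exact hF f h4.2 h4.1
  have h5 := comps_insert_not_conn s t B e' h3
  rw [card_insert_of_notMem (notMem_erase e' F), card_insert_of_notMem h2, empty_union,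
    empty_union, Nat.add_sub_add_right, Nat.succ_sub (card_le_card hB), ← h5, pow_succ]
  have h6 : B.card + 1 + comps s t (insert e' B) = B.card + (comps s t (insert e' B) + 1) := by
    ring
  rw [h6]
  simp

private theorem G2_card {E : Type} [Fintype E] (e : E) (p : E → Prop) [DecidablePred p] :
    (univ.filter (fun f : E => p f)).card =
      (univ.filter (fun f : {f // f ∈ (univ : Finset E).erase e} => p f.1)).card +
        if p e then 1 else 0 := by
  have h1 : (univ.filter (fun f : {f // f ∈ (univ : Finset E).erase e} => p f.1)).card =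
      ((univ.erase e).filter (fun f : E => p f)).card := by
    rw [← card_map (Function.Embedding.subtype _)]
    congr 1
    ext f
    simp only [mem_map, mem_filter, mem_univ, true_and, Function.Embedding.subtype_apply,
      Subtype.exists, exists_and_right, exists_eq_right, mem_erase, and_true]
    constructor
    · rintro ⟨h, hp⟩
      exact ⟨h, hp⟩
    · rintro ⟨h, hp⟩
      exact ⟨h, hp⟩
  rw [h1]
  have h2 : (univ : Finset E) = insert e (univ.erase e) := (insert_erase (mem_univ e)).symm
  conv_lhs => rw [h2, filter_insert]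
  split_ifs with h
  · rw [card_insert_of_notMem]
    intro hm
    exact notMem_erase e univ (mem_filter.1 hm).1
  · rfl

private theorem G2_compl {V E : Type} [Fintype V] [Fintype E] (s t : E → V) (P : Finset V) :
    vol s t P + vol s t Pᶜ = vol s t univ ∧ bd s t Pᶜ = bd s t P := by
  constructor
  · have h : ∀ g : E → V, (univ.filter (fun e => g e ∈ P)).card +
        (univ.filter (fun e => g e ∈ Pᶜ)).card = (univ.filter (fun e => g e ∈ (univ : Finset V))).card := by
      intro g
      have h1 : (univ.filter (fun e => g e ∈ Pᶜ)) = univ.filter (fun e => ¬ (g e ∈ P)) := by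
        apply filter_congr
        intro e _
        rw [mem_compl]
      have h2 : (univ.filter (fun e => g e ∈ (univ : Finset V))) = univ := by
        apply filter_true_of_mem
        intro e _
        exact mem_univ _
      rw [h1, h2, card_filter_add_card_filter_not]
    have h1 := h s
    have h2 := h t
    unfold vol
    omega
  · unfold bd
    congr 1
    apply filter_congr
    intro e _
    rw [mem_compl, mem_compl]
    tauto

theorem contract {V E : Type} [Fintype V] [Fintype E] (ε : ℝ) (hε : 0 < ε) (s t : E → V)
    (S : Finset V) (h : bd s t S = 2) (hc : Cond ε s t) :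
    ∃ (V' E' : Type) (_ : Fintype V') (_ : Fintype E') (s' t' : E' → V'),
      Fintype.card E' < Fintype.card E ∧ Fintype.card V' ≤ Fintype.card V ∧
        fp s' t' = fp s t ∧ Cond ε s' t' := by
  obtain ⟨e, e', hee, hcut⟩ := card_eq_two.1 h
  have hmem : ∀ f : E, ¬ (s f ∈ S ↔ t f ∈ S) ↔ (f = e ∨ f = e') := by
    intro f
    have h1 : f ∈ univ.filter (fun f => ¬ (s f ∈ S ↔ t f ∈ S)) ↔ f ∈ ({e, e'} : Finset E) := by
      rw [hcut]
    rw [mem_filter, mem_insert, mem_singleton] at h1
    simpa using h1
  have hst : Quot.mk (rel s t ∅) (s e) ≠ Quot.mk (rel s t ∅) (t e) := by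
    apply G2_sep s t S ∅ (by simp)
    exact (hmem e).2 (Or.inl rfl)
  have hcomp : comps s t {e} + 1 = Fintype.card V := by
    have h1 := comps_insert_not_conn s t ∅ e hst
    rw [comps_empty] at h1
    exact h1
  let _ : Fintype (Quot (rel s t {e})) := Fintype.ofFinite _
  have hV : Fintype.card (Quot (rel s t {e})) + 1 = Fintype.card V := by
    rw [← hcomp, comps, Nat.card_eq_fintype_card]
  have hE : Fintype.card {f // f ∈ (univ : Finset E).erase e} + 1 = Fintype.card E := by
    rw [Fintype.card_coe, card_erase_of_mem (mem_univ e), card_univ]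
    have : 0 < Fintype.card E := Fintype.card_pos_iff.2 ⟨e⟩
    omega
  refine ⟨Quot (rel s t {e}), {f // f ∈ (univ : Finset E).erase e}, inferInstance, inferInstance,
    fun f => Quot.mk _ (s f.1), fun f => Quot.mk _ (t f.1), by omega, by omega, ?_, ?_⟩
  · -- the flow polynomial
    have h1 := zp_del_con s t e
    have h2 : zm s t ∅ (univ.erase e) = 0 := by
      apply G2_zero s t S (univ.erase e) e' (mem_erase.2 ⟨hee.symm, mem_univ _⟩)
        ((hmem e').2 (Or.inr rfl))
      intro f hf hfe'
      by_contra hcon
      rcases (hmem f).1 hcon with h3 | h3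
      · exact (mem_erase.1 hf).1 h3
      · exact hfe' h3
    rw [h2, sub_zero, zm_eq_zp, zp_eq, zp_eq, ← hV, pow_succ] at h1
    have h3 : (Polynomial.X : Polynomial ℝ) ^ Fintype.card (Quot (rel s t {e})) * Polynomial.X *
        (fp (fun f : {f // f ∈ (univ : Finset E).erase e} => Quot.mk (rel s t {e}) (s f.1))
          (fun f : {f // f ∈ (univ : Finset E).erase e} => Quot.mk (rel s t {e}) (t f.1)) -
          fp s t) = 0 := by
      rw [mul_sub, h1]
      ring
    rcases mul_eq_zero.1 h3 with h4 | h4
    · exact absurd h4 (mul_ne_zero (pow_ne_zero _ Polynomial.X_ne_zero) Polynomial.X_ne_zero)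
    · exact sub_eq_zero.1 h4
  · -- the conductance condition
    intro S' hS'
    set P : Finset V := univ.filter (fun v => Quot.mk (rel s t {e}) v ∈ S') with hP
    have hPm : ∀ v, v ∈ P ↔ Quot.mk (rel s t {e}) v ∈ S' := by
      intro v
      rw [hP, mem_filter]
      simp
    have hq : Quot.mk (rel s t {e}) (s e) = Quot.mk (rel s t {e}) (t e) :=
      Quot.sound ⟨e, mem_singleton_self e, rfl, rfl⟩
    have hePt : (s e ∈ P ↔ t e ∈ P) := by
      rw [hPm, hPm, hq]
    have hbd : bd s t P = bd (fun f : {f // f ∈ (univ : Finset E).erase e} =>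
        Quot.mk (rel s t {e}) (s f.1)) (fun f => Quot.mk (rel s t {e}) (t f.1)) S' := by
      unfold bd
      rw [G2_card e, if_neg (not_not.2 hePt), add_zero]
      congr 1
      apply filter_congr
      intro f _
      rw [hPm, hPm]
    have hvol : vol s t P = vol (fun f : {f // f ∈ (univ : Finset E).erase e} =>
        Quot.mk (rel s t {e}) (s f.1)) (fun f => Quot.mk (rel s t {e}) (t f.1)) S' +
          (if s e ∈ P then 2 else 0) := by
      unfold vol
      rw [G2_card e (fun f => s f ∈ P), G2_card e (fun f => t f ∈ P)]
      have h1 : (univ.filter (fun f : {f // f ∈ (univ : Finset E).erase e} => s f.1 ∈ P)) =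
          univ.filter (fun f : {f // f ∈ (univ : Finset E).erase e} =>
            Quot.mk (rel s t {e}) (s f.1) ∈ S') := by
        apply filter_congr
        intro f _
        rw [hPm]
      have h2 : (univ.filter (fun f : {f // f ∈ (univ : Finset E).erase e} => t f.1 ∈ P)) =
          univ.filter (fun f : {f // f ∈ (univ : Finset E).erase e} =>
            Quot.mk (rel s t {e}) (t f.1) ∈ S') := by
        apply filter_congr
        intro f _
        rw [hPm]
      rw [h1, h2]
      by_cases h3 : s e ∈ P
      · rw [if_pos h3, if_pos (hePt.1 h3), if_pos h3]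
        ring
      · rw [if_neg h3, if_neg (fun h4 => h3 (hePt.2 h4)), if_neg h3]
        ring
    have hvu : vol s t univ = 2 * Fintype.card E := by
      unfold vol
      simp
      ring
    have hvu' : vol (fun f : {f // f ∈ (univ : Finset E).erase e} =>
        Quot.mk (rel s t {e}) (s f.1)) (fun f => Quot.mk (rel s t {e}) (t f.1)) univ =
          2 * Fintype.card {f // f ∈ (univ : Finset E).erase e} := by
      unfold vol
      simp
      ring
    obtain ⟨hcv, hcb⟩ := G2_compl s t P
    rw [hvu'] at hS'
    rw [← hbd]
    by_cases h1 : 2 * vol s t P ≤ vol s t univ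
    · have h2 := hc P h1
      refine le_trans ?_ h2
      apply mul_le_mul_of_nonneg_left _ hε.le
      have h3 : vol (fun f : {f // f ∈ (univ : Finset E).erase e} =>
        Quot.mk (rel s t {e}) (s f.1)) (fun f => Quot.mk (rel s t {e}) (t f.1)) S' ≤ vol s t P := by
        rw [hvol]
        exact Nat.le_add_right _ _
      exact_mod_cast h3
    · have h4 : 2 * vol s t Pᶜ ≤ vol s t univ := by omega
      have h2 := hc Pᶜ h4
      rw [hcb] at h2
      refine le_trans ?_ h2
      apply mul_le_mul_of_nonneg_left _ hε.le
      have h3 : vol (fun f : {f // f ∈ (univ : Finset E).erase e} =>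
        Quot.mk (rel s t {e}) (s f.1)) (fun f => Quot.mk (rel s t {e}) (t f.1)) S' ≤
          vol s t Pᶜ := by
        have h5 : (if s e ∈ P then 2 else 0) ≤ 2 := by
          split_ifs <;> norm_num
        omega
      exact_mod_cast h3

end Pool.Agent.LibFE4
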