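import Mathlib
import Pool.Agent.H69.FlowProof
import Pool.Agent.LibFE4.G2

/-!
# Row G3: removal of an isolated vertex

`V' = {u // u ≠ v}`, `E' = E` (every edge has both ends `≠ v` because `vol {v} = 0`).
Plan.  `comps s t A = comps s' t' A + 1` for every `A` (the class of `v` is `{v}`; e.g. an
equivalence `Quot (rel s t A) ≃ Option (Quot (rel s' t' A))`) and `|V| = |V'| + 1`, so the
exponents agree.  `bd` and `vol` of the image of `S'` agree with those of `S'`.
-/

set_option autoImplicit false

namespace Pool.Agent.LibFE4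

open Finset Pool.Agent.H69.Flow
open scoped Classical

private lemma G3_comps {V E : Type} [Fintype V] (s t : E → V) (v : V) (hs : ∀ e, s e ≠ v)
    (ht : ∀ e, t e ≠ v) (A : Finset E) :
    comps s t A =
      comps (fun e => (⟨s e, hs e⟩ : {u : V // u ≠ v})) (fun e => ⟨t e, ht e⟩) A + 1 := by
  set s' : E → {u : V // u ≠ v} := fun e => ⟨s e, hs e⟩ with hs'
  set t' : E → {u : V // u ≠ v} := fun e => ⟨t e, ht e⟩ with ht'
  have hl : ∀ a b : V, rel s t A a b →
      (if h : a = v then none else some (Quot.mk (rel s' t' A) ⟨a, h⟩)) =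
      (if h : b = v then none else some (Quot.mk (rel s' t' A) ⟨b, h⟩)) := by
    rintro a b ⟨e, he, rfl, rfl⟩
    rw [dif_neg (hs e), dif_neg (ht e)]
    exact congrArg some (Quot.sound ⟨e, he, rfl, rfl⟩)
  have hr : ∀ a b : {u : V // u ≠ v}, rel s' t' A a b →
      Quot.mk (rel s t A) a.1 = Quot.mk (rel s t A) b.1 := by
    rintro a b ⟨e, he, rfl, rfl⟩
    exact Quot.sound ⟨e, he, rfl, rfl⟩
  have e : Quot (rel s t A) ≃ Option (Quot (rel s' t' A)) :=
    { toFun := Quot.lift (fun u => if h : u = v then none
        else some (Quot.mk (rel s' t' A) ⟨u, h⟩)) hl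
      invFun := fun o => match o with
        | none => Quot.mk (rel s t A) v
        | some q => Quot.lift (fun u : {u : V // u ≠ v} => Quot.mk (rel s t A) u.1) hr q
      left_inv := by
        rintro ⟨u⟩
        show (match (if h : u = v then none else some (Quot.mk (rel s' t' A) ⟨u, h⟩)) with
          | none => Quot.mk (rel s t A) v
          | some q => Quot.lift (fun u : {u : V // u ≠ v} => Quot.mk (rel s t A) u.1) hr q) =
            Quot.mk (rel s t A) u
        by_cases h : u = v
        · rw [dif_pos h, h]
        · rw [dif_neg h]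
      right_inv := by
        rintro (_ | ⟨⟨u, hu⟩⟩)
        · show (if h : v = v then none else some (Quot.mk (rel s' t' A) ⟨v, h⟩)) = none
          rw [dif_pos rfl]
        · show (if h : u = v then none else some (Quot.mk (rel s' t' A) ⟨u, h⟩)) =
            some (Quot.mk (rel s' t' A) ⟨u, hu⟩)
          rw [dif_neg hu] }
  unfold comps
  rw [Nat.card_congr e, Finite.card_option]

theorem remove_isolated {V E : Type} [Fintype V] [Fintype E] (ε : ℝ) (s t : E → V)
    (v : V) (h : vol s t {v} = 0) (hc : Cond ε s t) :
    ∃ (V' E' : Type) (_ : Fintype V') (_ : Fintype E') (s' t' : E' → V'),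
      Fintype.card E' = Fintype.card E ∧ Fintype.card V' < Fintype.card V ∧
        fp s' t' = fp s t ∧ Cond ε s' t' := by
  have hs : ∀ e, s e ≠ v := by
    intro e he
    have h1 : 0 < (univ.filter (fun e => s e ∈ ({v} : Finset V))).card :=
      Finset.card_pos.2 ⟨e, by simp [he]⟩
    unfold vol at h
    omega
  have ht : ∀ e, t e ≠ v := by
    intro e he
    have h1 : 0 < (univ.filter (fun e => t e ∈ ({v} : Finset V))).card :=
      Finset.card_pos.2 ⟨e, by simp [he]⟩
    unfold vol at h
    omega
  have hcard : Fintype.card V = Fintype.card {u : V // u ≠ v} + 1 := by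
    have h1 := Fintype.card_subtype_compl (fun u : V => u = v)
    have h2 : Fintype.card {u : V // u = v} = 1 := Fintype.card_subtype_eq v
    have h3 : 0 < Fintype.card V := Fintype.card_pos_iff.2 ⟨v⟩
    have h4 : Fintype.card {u : V // u ≠ v} = Fintype.card {u : V // ¬ u = v} := rfl
    rw [h4, h1, h2]
    omega
  refine ⟨{u : V // u ≠ v}, E, inferInstance, inferInstance, fun e => ⟨s e, hs e⟩,
    fun e => ⟨t e, ht e⟩, rfl, by omega, ?_, ?_⟩
  · unfold fp
    refine Finset.sum_congr rfl fun A _ => ?_
    have h1 := G3_comps s t v hs ht A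
    rw [h1, hcard]
    congr 2
    omega
  · intro S' hS'
    have hmem : ∀ (u : V) (hu : u ≠ v), u ∈ S'.map (Function.Embedding.subtype _) ↔
        (⟨u, hu⟩ : {u : V // u ≠ v}) ∈ S' := by
      intro u hu
      rw [Finset.mem_map]
      constructor
      · rintro ⟨w, hw, rfl⟩
        exact hw
      · intro h1
        exact ⟨_, h1, rfl⟩
    have hvol : vol s t (S'.map (Function.Embedding.subtype _)) =
        vol (fun e => (⟨s e, hs e⟩ : {u : V // u ≠ v})) (fun e => ⟨t e, ht e⟩) S' := by
      unfold vol
      congr 2
      · ext e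
        simp only [mem_filter, mem_univ, true_and]
        exact hmem _ _
      · ext e
        simp only [mem_filter, mem_univ, true_and]
        exact hmem _ _
    have hbd : bd s t (S'.map (Function.Embedding.subtype _)) =
        bd (fun e => (⟨s e, hs e⟩ : {u : V // u ≠ v})) (fun e => ⟨t e, ht e⟩) S' := by
      unfold bd
      congr 1
      ext e
      simp only [mem_filter, mem_univ, true_and]
      rw [hmem _ (hs e), hmem _ (ht e)]
    have huniv : vol s t univ =
        vol (fun e => (⟨s e, hs e⟩ : {u : V // u ≠ v})) (fun e => ⟨t e, ht e⟩) univ := by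
      simp [vol]
    have h1 := hc (S'.map (Function.Embedding.subtype _)) (by rw [hvol, huniv]; exact hS')
    rw [hvol, hbd] at h1
    exact h1

end Pool.Agent.LibFE4
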