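import Mathlib
import Pool.Agent.H69.FlowProof
import Pool.Agent.LibFE4.Defs

/-!
# Row K1: sums over unions of components

Plan.  `U ↦ U.image (Quot.mk (rel s t A))` is a bijection from the sets `U` with `cl s t A U`
onto `Finset (Quot (rel s t A))`; inverse `T ↦ univ.filter (fun u => Quot.mk _ u ∈ T)`.
(`cl` gives: if `Quot.mk _ u = Quot.mk _ v` then `u ∈ U ↔ v ∈ U`: apply `Quot.lift (· ∈ U)`
with `propext`, cf. `conn_mono` in H69/FlowProof.)  Under it `kap` becomes `T.card`, and
`∑ T : Finset Q, y ^ T.card = (1 + y) ^ card Q` (`Finset.sum_pow_mul_eq_add_pow` or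
`Finset.prod_add`, `Finset.sum_powerset...`).  `Quot (rel s t A)` is finite:
`Fintype.ofFinite _`, `comps = Nat.card = Fintype.card`.
For the second statement the sets `T` with `Quot.mk _ g ∉ T` are `(univ.erase _).powerset`.
-/

set_option autoImplicit false

namespace Pool.Agent.LibFE4

open Finset Pool.Agent.H69.Flow
open scoped Classical

variable {V E : Type} [Fintype V] [Fintype E]

lemma mem_of_cl (s t : E → V) {A : Finset E} {U : Finset V} (h : cl s t A U) {u v : V}
    (huv : Quot.mk (rel s t A) u = Quot.mk (rel s t A) v) : u ∈ U ↔ v ∈ U := by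
  have h1 : ∀ a b : V, rel s t A a b → (a ∈ U) = (b ∈ U) := by
    rintro a b ⟨e, he, rfl, rfl⟩
    exact propext (h e he)
  exact iff_of_eq (congrArg (Quot.lift (fun w => w ∈ U) h1) huv)

private lemma K1_cl_filter (s t : E → V) (A : Finset E) (T : Finset (Quot (rel s t A))) :
    cl s t A (univ.filter (fun u => Quot.mk (rel s t A) u ∈ T)) := by
  intro e he
  have h1 : Quot.mk (rel s t A) (s e) = Quot.mk (rel s t A) (t e) := Quot.sound ⟨e, he, rfl, rfl⟩
  simp only [mem_filter, mem_univ, true_and, h1]

private lemma K1_left (s t : E → V) (A : Finset E) (U : Finset V) (h : cl s t A U) :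
    univ.filter (fun u => Quot.mk (rel s t A) u ∈ U.image (Quot.mk (rel s t A))) = U := by
  ext u
  simp only [mem_filter, mem_univ, true_and, mem_image]
  constructor
  · rintro ⟨v, hv, hvu⟩
    exact (mem_of_cl s t h hvu).1 hv
  · intro hu
    exact ⟨u, hu, rfl⟩

private lemma K1_right (s t : E → V) (A : Finset E) (T : Finset (Quot (rel s t A))) :
    (univ.filter (fun u => Quot.mk (rel s t A) u ∈ T)).image (Quot.mk (rel s t A)) = T := by
  ext q
  simp only [mem_filter, mem_univ, true_and, mem_image]
  constructor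
  · rintro ⟨v, hv, rfl⟩
    exact hv
  · intro hq
    obtain ⟨u, rfl⟩ := Quot.exists_rep q
    exact ⟨u, hq, rfl⟩

theorem sum_closed (s t : E → V) (A : Finset E) (y : ℂ) :
    ∑ U ∈ univ.filter (fun U : Finset V => cl s t A U), y ^ kap s t A U =
      (1 + y) ^ comps s t A := by
  letI : Fintype (Quot (rel s t A)) := Fintype.ofFinite _
  have h1 : ∑ U ∈ univ.filter (fun U : Finset V => cl s t A U), y ^ kap s t A U =
      ∑ T : Finset (Quot (rel s t A)), y ^ T.card := by
    refine Finset.sum_bij' (fun U _ => U.image (Quot.mk (rel s t A)))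
      (fun T _ => univ.filter (fun u => Quot.mk (rel s t A) u ∈ T)) ?_ ?_ ?_ ?_ ?_
    · intro U _
      exact mem_univ _
    · intro T _
      exact mem_filter.2 ⟨mem_univ _, K1_cl_filter s t A T⟩
    · intro U hU
      exact K1_left s t A U (mem_filter.1 hU).2
    · intro T _
      exact K1_right s t A T
    · intro U _
      rfl
  rw [h1]
  have h2 := Finset.sum_pow_mul_eq_add_pow y 1 (univ : Finset (Quot (rel s t A)))
  rw [Finset.powerset_univ] at h2
  simp only [one_pow, mul_one] at h2
  rw [h2, comps, Nat.card_eq_fintype_card, Finset.card_univ, add_comm]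

theorem sum_closed_avoid (s t : E → V) (A : Finset E) (y : ℂ) (g : V) :
    ∑ U ∈ univ.filter (fun U : Finset V => cl s t A U ∧ g ∉ U), y ^ kap s t A U =
      (1 + y) ^ (comps s t A - 1) := by
  letI : Fintype (Quot (rel s t A)) := Fintype.ofFinite _
  have h1 : ∑ U ∈ univ.filter (fun U : Finset V => cl s t A U ∧ g ∉ U), y ^ kap s t A U =
      ∑ T ∈ ((univ : Finset (Quot (rel s t A))).erase (Quot.mk _ g)).powerset, y ^ T.card := by
    refine Finset.sum_bij' (fun U _ => U.image (Quot.mk (rel s t A)))
      (fun T _ => univ.filter (fun u => Quot.mk (rel s t A) u ∈ T)) ?_ ?_ ?_ ?_ ?_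
    · intro U hU
      obtain ⟨-, hc, hg⟩ := mem_filter.1 hU
      rw [mem_powerset]
      intro q hq
      obtain ⟨u, hu, rfl⟩ := mem_image.1 hq
      rw [mem_erase]
      refine ⟨fun h => hg ?_, mem_univ _⟩
      exact (mem_of_cl s t hc h).1 hu
    · intro T hT
      refine mem_filter.2 ⟨mem_univ _, K1_cl_filter s t A T, ?_⟩
      intro h
      have h2 := (mem_filter.1 h).2
      have h3 := (mem_powerset.1 hT) h2
      exact (mem_erase.1 h3).1 rfl
    · intro U hU
      exact K1_left s t A U (mem_filter.1 hU).2.1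
    · intro T _
      exact K1_right s t A T
    · intro U _
      rfl
  rw [h1]
  have h2 := Finset.sum_pow_mul_eq_add_pow y 1 ((univ : Finset (Quot (rel s t A))).erase (Quot.mk _ g))
  simp only [one_pow, mul_one] at h2
  rw [h2, comps, Nat.card_eq_fintype_card, Finset.card_erase_of_mem (mem_univ _), Finset.card_univ,
    add_comm]

end Pool.Agent.LibFE4
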