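import Mathlib
import Pool.Agent.LibFE4.K1
import Pool.Agent.LibFE4.B1
import Pool.Agent.LibFE4.B2
import Pool.Agent.LibFE4.D2
import Pool.Agent.LibFE4.C1

/-!
# Assembly: the flow roots of expanders are bounded
-/

set_option autoImplicit false

namespace Pool.Agent.LibFE4

open Finset Pool.Agent.H69.Flow
open scoped Classical

variable {V E : Type} [Fintype V] [Fintype E]

/-- `z ^ |V|` times the value of the flow polynomial. -/
noncomputable def ZZ (s t : E → V) (z : ℂ) : ℂ :=
  ∑ A : Finset E, we z A * z ^ comps s t A

lemma ZZ_eq (s t : E → V) (z : ℂ) :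
    ZZ s t z = z ^ Fintype.card V * ((fp s t).map (algebraMap ℝ ℂ)).eval z := by
  rw [ZZ, fp, Polynomial.map_sum, Polynomial.eval_finsetSum, mul_sum]
  apply sum_congr rfl
  intro A _
  have h := card_le_expo s t A
  simp only [we, Polynomial.map_mul, Polynomial.map_C, Polynomial.map_pow, Polynomial.map_X,
    Polynomial.eval_mul, Polynomial.eval_C, Polynomial.eval_pow, Polynomial.eval_X]
  have h2 : z ^ Fintype.card V * z ^ (A.card + comps s t A - Fintype.card V) =
      z ^ A.card * z ^ comps s t A := by
    rw [← pow_add, ← pow_add, Nat.add_sub_cancel' h]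
  have h3 : (algebraMap ℝ ℂ) ((-1 : ℝ) ^ (Fintype.card E - A.card)) =
      (-1 : ℂ) ^ (Fintype.card E - A.card) := by simp
  rw [h3]
  linear_combination -((-1 : ℂ) ^ (Fintype.card E - A.card)) * h2

/-- `A` has no component with more than half of the volume. -/
def nog (s t : E → V) (A : Finset E) : Prop :=
  ∀ v, 2 * vol s t (clus s t A v) ≤ vol s t univ

lemma Phi_sum (s t : E → V) (z : ℂ) (hz : z - 1 ≠ 0) :
    (z - 1) ^ Fintype.card E * Phi s t z univ =
      ∑ A : Finset E, we z A *
        ∑ U ∈ univ.filter (fun U : Finset V => cl s t A U ∧ small s t U),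
          (z - 1) ^ kap s t A U := by
  have h1 : (z - 1) ^ Fintype.card E * Phi s t z univ =
      ∑ U ∈ univ.filter (fun U : Finset V => small s t U),
        ∑ A ∈ univ.filter (fun A : Finset E => cl s t A U), we z A * (z - 1) ^ kap s t A U := by
    rw [Phi, mul_sum]
    have e1 : (univ : Finset V).powerset.filter (fun U => small s t U) =
        univ.filter (fun U : Finset V => small s t U) := by
      ext U; simp
    rw [e1]
    apply sum_congr rfl
    intro U _
    rw [sum_edges s t z (z - 1) U, wt]
    have h2 := card_split s t U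
    rw [← h2]
    have h3 : (z - 1) ^ ((ins s t U).card + bd s t U + (ins s t Uᶜ).card) =
        (z - 1) ^ ((ins s t U).card + bd s t U) * (z - 1) ^ (ins s t Uᶜ).card := by
      rw [pow_add]
    have h4 : (z - 1) ^ ((ins s t U).card + bd s t U) *
        ((z - 1)⁻¹) ^ ((ins s t U).card + bd s t U) = 1 := by
      rw [← mul_pow, mul_inv_cancel₀ hz, one_pow]
    rw [h3]
    linear_combination ((z - 1) ^ (ins s t Uᶜ).card * (-1) ^ bd s t U *
      Zs s t z (z - 1) U) * h4
  rw [h1]
  simp_rw [mul_sum]
  rw [sum_comm' (t' := univ)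
    (s' := fun A => univ.filter (fun U : Finset V => cl s t A U ∧ small s t U))]
  intro U A
  simp only [mem_filter, mem_univ, true_and, and_true]
  exact and_comm

/-- If there is a giant component then the small unions of components are those that avoid it. -/
lemma small_iff (s t : E → V) {A : Finset E} {g : V}
    (hg : vol s t univ < 2 * vol s t (clus s t A g)) (U : Finset V) (hU : cl s t A U) :
    small s t U ↔ g ∉ U := by
  have mono : ∀ X Y : Finset V, X ⊆ Y → vol s t X ≤ vol s t Y := by
    intro X Y h
    unfold vol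
    apply Nat.add_le_add <;>
    · apply card_le_card
      intro e he
      simp only [mem_filter, mem_univ, true_and] at he ⊢
      exact h he
  have hdisj : ∀ X Y : Finset V, Disjoint X Y → vol s t X + vol s t Y ≤ vol s t univ := by
    intro X Y h
    have h1 : (univ.filter (fun e => s e ∈ X)).card + (univ.filter (fun e => s e ∈ Y)).card ≤
        (univ.filter (fun e => s e ∈ (univ : Finset V))).card := by
      rw [← card_union_of_disjoint]
      · apply card_le_card
        intro e _
        simp
      · rw [Finset.disjoint_left]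
        intro e he he2
        simp only [mem_filter, mem_univ, true_and] at he he2
        exact (Finset.disjoint_left.1 h) he he2
    have h2 : (univ.filter (fun e => t e ∈ X)).card + (univ.filter (fun e => t e ∈ Y)).card ≤
        (univ.filter (fun e => t e ∈ (univ : Finset V))).card := by
      rw [← card_union_of_disjoint]
      · apply card_le_card
        intro e _
        simp
      · rw [Finset.disjoint_left]
        intro e he he2
        simp only [mem_filter, mem_univ, true_and] at he he2
        exact (Finset.disjoint_left.1 h) he he2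
    unfold vol
    omega
  have hq : ∀ u, u ∈ clus s t A g ↔ Quot.mk (rel s t A) u = Quot.mk (rel s t A) g := by
    intro u; simp [clus]
  constructor
  · intro h hgU
    have h1 := h g hgU
    have h2 : clus s t A g ⊆ comp s t U g := by
      intro u hu
      rw [hq] at hu
      have h3 := quot_inter s t hU hgU hu.symm
      refine mem_filter.2 ⟨h3.1, ?_⟩
      exact (conn_mono s t inter_subset_right _ _ h3.2).symm
    have h4 := mono _ _ h2
    omega
  · intro hgU v hv
    have h1 : Disjoint (comp s t U v) (clus s t A g) := by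
      rw [Finset.disjoint_left]
      intro u hu hu2
      rw [hq] at hu2
      have h2 : u ∈ U := (mem_filter.1 hu).1
      exact hgU ((mem_of_cl s t hU hu2).1 h2)
    have h2 := hdisj _ _ h1
    omega

lemma comps_pos (s t : E → V) (A : Finset E) (g : V) : 1 ≤ comps s t A := by
  unfold comps
  have : Nonempty (Quot (rel s t A)) := ⟨Quot.mk _ g⟩
  exact Nat.card_pos

lemma diff_eq (s t : E → V) (z : ℂ) (hz : z - 1 ≠ 0) :
    ZZ s t z - z * ((z - 1) ^ Fintype.card E * Phi s t z univ) =
      ∑ A ∈ univ.filter (fun A : Finset E => nog s t A), we z A *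
        (z ^ comps s t A -
          z * ∑ U ∈ univ.filter (fun U : Finset V => cl s t A U ∧ small s t U),
            (z - 1) ^ kap s t A U) := by
  rw [Phi_sum s t z hz, ZZ, mul_sum, ← sum_sub_distrib, sum_filter]
  apply sum_congr rfl
  intro A _
  by_cases h : nog s t A
  · rw [if_pos h]; ring
  · rw [if_neg h]
    unfold nog at h
    push Not at h
    obtain ⟨g, hg⟩ := h
    have h1 : univ.filter (fun U : Finset V => cl s t A U ∧ small s t U) =
        univ.filter (fun U : Finset V => cl s t A U ∧ g ∉ U) := by
      ext U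
      simp only [mem_filter, mem_univ, true_and]
      constructor
      · rintro ⟨a, b⟩
        exact ⟨a, (small_iff s t hg U a).1 b⟩
      · rintro ⟨a, b⟩
        exact ⟨a, (small_iff s t hg U a).2 b⟩
    rw [h1, sum_closed_avoid]
    have h2 : (1 + (z - 1)) = z := by ring
    rw [h2]
    have h3 := comps_pos s t A g
    have h4 : z ^ comps s t A = z * z ^ (comps s t A - 1) := by
      rw [← pow_succ', Nat.sub_add_cancel h3]
    rw [h4]
    ring

lemma norm_we (z : ℂ) (A : Finset E) : ‖we z A‖ = ‖z‖ ^ A.card := by
  simp [we]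

lemma diff_bound (s t : E → V) (ε : ℝ) (hε0 : 0 < ε) (hε1 : ε ≤ 1)
    (h3 : ∀ S : Finset V, S.Nonempty → S ≠ univ → 3 ≤ bd s t S)
    (hε : ∀ S : Finset V, 2 * vol s t S ≤ vol s t univ → ε * (vol s t S : ℝ) ≤ bd s t S)
    (hm : 0 < Fintype.card E) (z : ℂ) (hz : z - 1 ≠ 0) :
    ‖ZZ s t z - z * ((z - 1) ^ Fintype.card E * Phi s t z univ)‖ ≤
      2 ^ Fintype.card E *
        (2 * (‖z‖ + 2) ^ ((Fintype.card E : ℝ) - ε * Fintype.card E / 3 + 1)) := by
  rw [diff_eq s t z hz]
  have hR : 1 ≤ ‖z‖ + 2 := by linarith [norm_nonneg z]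
  have hy : ‖z - 1‖ ≤ ‖z‖ + 1 := by
    calc ‖z - 1‖ ≤ ‖z‖ + ‖(1 : ℂ)‖ := norm_sub_le _ _
      _ = ‖z‖ + 1 := by simp
  have key : ∀ A ∈ univ.filter (fun A : Finset E => nog s t A), ‖we z A *
        (z ^ comps s t A -
          z * ∑ U ∈ univ.filter (fun U : Finset V => cl s t A U ∧ small s t U),
            (z - 1) ^ kap s t A U)‖ ≤
      2 * (‖z‖ + 2) ^ ((Fintype.card E : ℝ) - ε * Fintype.card E / 3 + 1) := by
    intro A hA
    have hA' : nog s t A := (mem_filter.1 hA).2
    have hb := card_bound s t ε h3 hε hm A hA'
    have h1 : ‖∑ U ∈ univ.filter (fun U : Finset V => cl s t A U ∧ small s t U),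
        (z - 1) ^ kap s t A U‖ ≤ (‖z‖ + 2) ^ comps s t A := by
      calc ‖∑ U ∈ univ.filter (fun U : Finset V => cl s t A U ∧ small s t U),
            (z - 1) ^ kap s t A U‖
          ≤ ∑ U ∈ univ.filter (fun U : Finset V => cl s t A U ∧ small s t U),
            (‖z‖ + 1) ^ kap s t A U := by
            refine (norm_sum_le _ _).trans (sum_le_sum ?_)
            intro U _
            rw [norm_pow]
            exact pow_le_pow_left₀ (norm_nonneg _) hy _
        _ ≤ ∑ U ∈ univ.filter (fun U : Finset V => cl s t A U), (‖z‖ + 1) ^ kap s t A U := by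
            apply sum_le_sum_of_subset_of_nonneg
            · intro U hU
              simp only [mem_filter, mem_univ, true_and] at hU ⊢
              exact hU.1
            · intro U _ _
              positivity
        _ = (‖z‖ + 2) ^ comps s t A := by
            have h := sum_closed s t A ((‖z‖ + 1 : ℝ) : ℂ)
            have h' : ((∑ U ∈ univ.filter (fun U : Finset V => cl s t A U),
                (‖z‖ + 1) ^ kap s t A U : ℝ) : ℂ) = (((‖z‖ + 2) ^ comps s t A : ℝ) : ℂ) := by
              push_cast
              push_cast at h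
              rw [h]
              congr 1
              ring
            exact_mod_cast h'
    have h2 : ‖z ^ comps s t A -
          z * ∑ U ∈ univ.filter (fun U : Finset V => cl s t A U ∧ small s t U),
            (z - 1) ^ kap s t A U‖ ≤ 2 * (‖z‖ + 2) ^ (comps s t A + 1) := by
      calc _ ≤ ‖z ^ comps s t A‖ + ‖z * ∑ U ∈ univ.filter (fun U : Finset V =>
            cl s t A U ∧ small s t U), (z - 1) ^ kap s t A U‖ := norm_sub_le _ _
        _ ≤ (‖z‖ + 2) ^ comps s t A + ‖z‖ * (‖z‖ + 2) ^ comps s t A := by
            rw [norm_pow, norm_mul]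
            apply add_le_add
            · exact pow_le_pow_left₀ (norm_nonneg _) (by linarith) _
            · exact mul_le_mul_of_nonneg_left h1 (norm_nonneg _)
        _ ≤ 2 * (‖z‖ + 2) ^ (comps s t A + 1) := by
            rw [pow_succ]
            have h4 : 0 ≤ (‖z‖ + 2) ^ comps s t A := by positivity
            nlinarith [norm_nonneg z]
    rw [norm_mul, norm_we]
    calc ‖z‖ ^ A.card * ‖z ^ comps s t A -
          z * ∑ U ∈ univ.filter (fun U : Finset V => cl s t A U ∧ small s t U),
            (z - 1) ^ kap s t A U‖
        ≤ (‖z‖ + 2) ^ A.card * (2 * (‖z‖ + 2) ^ (comps s t A + 1)) := by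
          apply mul_le_mul _ h2 (norm_nonneg _) (by positivity)
          exact pow_le_pow_left₀ (norm_nonneg _) (by linarith) _
      _ = 2 * (‖z‖ + 2) ^ ((A.card : ℝ) + comps s t A + 1) := by
          rw [Real.rpow_add (by linarith), Real.rpow_add (by linarith), Real.rpow_natCast,
            Real.rpow_natCast, Real.rpow_one, pow_succ]
          ring
      _ ≤ _ := by
          apply mul_le_mul_of_nonneg_left _ (by norm_num)
          exact Real.rpow_le_rpow_of_exponent_le hR (by linarith)
  calc _ ≤ ∑ A ∈ univ.filter (fun A : Finset E => nog s t A), ‖we z A *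
        (z ^ comps s t A -
          z * ∑ U ∈ univ.filter (fun U : Finset V => cl s t A U ∧ small s t U),
            (z - 1) ^ kap s t A U)‖ := norm_sum_le _ _
    _ ≤ ∑ A ∈ univ.filter (fun A : Finset E => nog s t A),
        2 * (‖z‖ + 2) ^ ((Fintype.card E : ℝ) - ε * Fintype.card E / 3 + 1) := sum_le_sum key
    _ = (univ.filter (fun A : Finset E => nog s t A)).card *
        (2 * (‖z‖ + 2) ^ ((Fintype.card E : ℝ) - ε * Fintype.card E / 3 + 1)) := by
        rw [sum_const, nsmul_eq_mul]
    _ ≤ _ := by
        apply mul_le_mul_of_nonneg_right _ (by positivity)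
        have h5 : (univ.filter (fun A : Finset E => nog s t A)).card ≤ 2 ^ Fintype.card E := by
          calc _ ≤ (univ : Finset (Finset E)).card := card_filter_le _ _
            _ = 2 ^ Fintype.card E := by rw [card_univ, Fintype.card_finset]
        exact_mod_cast h5

end Pool.Agent.LibFE4
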