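import Mathlib
import Pool.Agent.LibFE4.T1

/-!
# The main theorem: complex flow roots of expanders
-/

set_option autoImplicit false

namespace Pool.Agent.LibFE4

open Finset Pool.Agent.H69.Flow
open scoped Classical

variable {V E : Type} [Fintype V] [Fintype E]

lemma vol_sum (s t : E → V) (U : Finset V) : vol s t U = ∑ v ∈ U, vol s t {v} := by
  unfold vol
  rw [sum_add_distrib]
  have h1 : ∀ f : E → V, (univ.filter (fun e => f e ∈ U)).card =
      ∑ v ∈ U, (univ.filter (fun e => f e ∈ ({v} : Finset V))).card := by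
    intro f
    rw [card_eq_sum_card_fiberwise (f := f) (t := U)]
    · apply sum_congr rfl
      intro v hv
      congr 1
      ext e
      simp only [mem_filter, mem_univ, true_and, mem_singleton]
      constructor
      · exact fun h => h.2
      · intro h
        exact ⟨h ▸ hv, h⟩
    · intro e he
      have := (mem_filter.1 he).2
      exact this
  rw [h1 s, h1 t]

lemma vol_univ (s t : E → V) : vol s t (univ : Finset V) = 2 * Fintype.card E := by
  unfold vol
  simp only [mem_univ, filter_true, card_univ]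
  ring

lemma deg_pos (s t : E → V)
    (h3 : ∀ S : Finset V, S.Nonempty → S ≠ univ → 3 ≤ bd s t S)
    (hm : 0 < Fintype.card E) (v : V) : 1 ≤ vol s t {v} := by
  by_cases h : ({v} : Finset V) = univ
  · rw [h, vol_univ]; omega
  · have h1 := h3 {v} (singleton_nonempty v) h
    have h2 := vol_eq s t {v}
    omega

lemma card_le_vol (s t : E → V) (hd : ∀ v : V, 1 ≤ vol s t {v}) (X : Finset V) :
    X.card ≤ vol s t X := by
  rw [vol_sum]
  calc X.card = ∑ v ∈ X, 1 := by simp
    _ ≤ _ := sum_le_sum (fun v _ => hd v)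

lemma card_V_le (s t : E → V)
    (h3 : ∀ S : Finset V, S.Nonempty → S ≠ univ → 3 ≤ bd s t S)
    (hm : 0 < Fintype.card E) : Fintype.card V ≤ Fintype.card E := by
  by_cases h : Fintype.card V ≤ 1
  · omega
  · have h1 : ∀ v : V, 3 ≤ vol s t {v} := by
      intro v
      have h2 : ({v} : Finset V) ≠ univ := by
        intro h2
        have h4 := congrArg Finset.card h2
        rw [card_singleton, card_univ] at h4
        omega
      have h4 := h3 {v} (singleton_nonempty v) h2
      have h5 := vol_eq s t {v}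
      omega
    have h2 : 3 * Fintype.card V ≤ vol s t univ := by
      rw [vol_sum]
      calc 3 * Fintype.card V = ∑ v : V, 3 := by simp [mul_comm]
        _ ≤ _ := sum_le_sum (fun v _ => h1 v)
    rw [vol_univ] at h2
    omega

lemma nb_card (s t : E → V) (hd : ∀ v : V, 1 ≤ vol s t {v}) (X : Finset V) :
    (nb s t X).card ≤ 2 * vol s t X := by
  have h1 : nb s t X ⊆ X ∪ (univ.filter (fun e => ¬ (s e ∈ X ↔ t e ∈ X))).image
      (fun e => if s e ∈ X then t e else s e) := by
    intro u hu
    simp only [nb, mem_filter, mem_univ, true_and] at hu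
    rw [mem_union, mem_image]
    by_cases huX : u ∈ X
    · exact Or.inl huX
    · right
      rcases hu with hu | ⟨e, ⟨h1, h2⟩ | ⟨h1, h2⟩⟩
      · exact absurd hu huX
      · refine ⟨e, mem_filter.2 ⟨mem_univ _, ?_⟩, ?_⟩
        · intro h
          exact huX (h2 ▸ (h.1 h1))
        · simp [h1, h2]
      · refine ⟨e, mem_filter.2 ⟨mem_univ _, ?_⟩, ?_⟩
        · intro h
          exact huX (h2 ▸ (h.2 h1))
        · have h5 : s e ∉ X := by rw [h2]; exact huX
          simp only [if_neg h5]
          exact h2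
  have h2 := card_le_card h1
  have h3 := card_union_le X ((univ.filter (fun e => ¬ (s e ∈ X ↔ t e ∈ X))).image
      (fun e => if s e ∈ X then t e else s e))
  have h4 : ((univ.filter (fun e => ¬ (s e ∈ X ↔ t e ∈ X))).image
      (fun e => if s e ∈ X then t e else s e)).card ≤ bd s t X := card_image_le
  have h5 := card_le_vol s t hd X
  have h6 := vol_eq s t X
  omega

lemma wt_bound (s t : E → V) (ε : ℝ) (hε0 : 0 < ε) (hε1 : ε ≤ 1)
    (hd : ∀ v : V, 1 ≤ vol s t {v}) (z : ℂ) (hz : (2 : ℝ) ^ (18 / ε) < ‖z‖)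
    (X : Finset V) (v : V) (hX : Con s t X v) (hb : 3 ≤ bd s t X)
    (hε : ε * (vol s t X : ℝ) ≤ bd s t X) :
    ‖wt s t z X‖ * 2 ^ (nb s t X).card ≤ 1 / 2 * (1 / 4 : ℝ) ^ vol s t X := by
  set r := ‖z‖ with hr
  set e := (ins s t X).card with he
  set b := bd s t X with hbdef
  set n := vol s t X with hn
  have hC : (2 : ℝ) ^ (18 : ℝ) ≤ (2 : ℝ) ^ (18 / ε) := by
    apply Real.rpow_le_rpow_of_exponent_le (by norm_num)
    rw [le_div_iff₀ hε0]
    nlinarith
  have hC2 : (2 : ℝ) ^ (18 : ℝ) = 262144 := by norm_num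
  have hr1 : 262144 < r := by linarith
  set q := r - 1 with hq
  have hq0 : 4 ≤ q := by linarith
  have hq1 : q ≤ ‖z - 1‖ := by
    have := norm_sub_norm_le z 1
    simp at this
    linarith
  have hz1 : ‖z - 1‖ ≤ r + 1 := by
    calc ‖z - 1‖ ≤ ‖z‖ + ‖(1 : ℂ)‖ := norm_sub_le _ _
      _ = r + 1 := by simp [hr]
  have hvol : n = 2 * e + b := vol_eq s t X
  -- bound for the weight
  have h1 : ‖wt s t z X‖ ≤ (q⁻¹) ^ (e + b) * (2 ^ e * (2 * q) ^ (e + 1)) := by
    rw [wt, norm_mul, norm_mul, norm_pow, norm_neg, norm_one, one_pow, one_mul, norm_pow,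
      norm_inv]
    apply mul_le_mul
    · apply pow_le_pow_left₀ (by positivity)
      exact inv_anti₀ (by linarith) hq1
    · have h2 := Zs_bound s t z (z - 1) (r + 1) (by linarith) (by linarith) hz1 X v hX
      refine h2.trans ?_
      apply mul_le_mul_of_nonneg_left _ (by positivity)
      apply pow_le_pow_left₀ (by linarith)
      linarith
    · positivity
    · positivity
  have hqpos : 0 < q := by linarith
  -- q ^ b is large
  have h2 : 4 * q * 32 ^ n ≤ q ^ b := by
    have hq2 : (2 : ℝ) ^ (17 / ε) ≤ q := by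
      have a1 : (2 : ℝ) ^ (17 / ε) * 2 ≤ (2 : ℝ) ^ (18 / ε) := by
        have : (2 : ℝ) ^ (17 / ε) * 2 = (2 : ℝ) ^ (17 / ε + 1) := by
          rw [Real.rpow_add (by norm_num), Real.rpow_one]
        rw [this]
        apply Real.rpow_le_rpow_of_exponent_le (by norm_num)
        have : 1 ≤ 1 / ε := by rw [le_div_iff₀ hε0]; linarith
        have e1 : 18 / ε = 17 / ε + 1 / ε := by ring
        linarith
      have a2 : (1 : ℝ) ≤ (2 : ℝ) ^ (17 / ε) := by
        apply Real.one_le_rpow (by norm_num)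
        positivity
      linarith
    have hq3 : (32 : ℝ) ≤ q ^ (ε / 3) := by
      calc (32 : ℝ) = (2 : ℝ) ^ (5 : ℝ) := by norm_num
        _ ≤ (2 : ℝ) ^ (17 / ε * (ε / 3)) := by
          apply Real.rpow_le_rpow_of_exponent_le (by norm_num)
          have : 17 / ε * (ε / 3) = 17 / 3 := by field_simp
          rw [this]; norm_num
        _ = ((2 : ℝ) ^ (17 / ε)) ^ (ε / 3) := by rw [Real.rpow_mul (by norm_num)]
        _ ≤ q ^ (ε / 3) := Real.rpow_le_rpow (by positivity) hq2 (by positivity)
    have hb' : (2 : ℝ) + (ε / 3) * n ≤ b := by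
      have hb3 : (3 : ℝ) ≤ b := by exact_mod_cast hb
      nlinarith
    calc 4 * q * 32 ^ n ≤ q * q * 32 ^ n := by
          apply mul_le_mul_of_nonneg_right _ (by positivity)
          nlinarith
      _ ≤ q * q * (q ^ (ε / 3)) ^ n := by
          apply mul_le_mul_of_nonneg_left _ (by positivity)
          exact pow_le_pow_left₀ (by norm_num) hq3 _
      _ = q ^ ((2 : ℝ) + (ε / 3) * n) := by
          rw [Real.rpow_add hqpos, Real.rpow_mul hqpos.le, Real.rpow_natCast]
          congr 1
          have : (2 : ℝ) = ((2 : ℕ) : ℝ) := by norm_num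
          rw [this, Real.rpow_natCast]
          ring
      _ ≤ q ^ (b : ℝ) := Real.rpow_le_rpow_of_exponent_le (by linarith) hb'
      _ = q ^ b := Real.rpow_natCast _ _
  have h3 : (nb s t X).card ≤ 2 * n := nb_card s t hd X
  have h4 : (2 : ℝ) ^ (nb s t X).card ≤ 4 ^ n := by
    calc (2 : ℝ) ^ (nb s t X).card ≤ 2 ^ (2 * n) := pow_le_pow_right₀ (by norm_num) h3
      _ = 4 ^ n := by rw [pow_mul]; norm_num
  have h5 : (q⁻¹) ^ (e + b) * (2 ^ e * (2 * q) ^ (e + 1)) = 2 * 4 ^ e * q * (q⁻¹) ^ b := by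
    have : (q⁻¹) ^ e * q ^ e = 1 := by rw [← mul_pow, inv_mul_cancel₀ hqpos.ne', one_pow]
    have h44 : (4 : ℝ) ^ e = 2 ^ e * 2 ^ e := by rw [← mul_pow]; norm_num
    rw [pow_add, mul_pow, pow_succ, pow_succ, h44]
    linear_combination (2 * q * (q⁻¹) ^ b * 2 ^ e * 2 ^ e) * this
  have h6 : (4 : ℝ) ^ e ≤ 2 ^ n := by
    calc (4 : ℝ) ^ e = 2 ^ (2 * e) := by rw [pow_mul]; norm_num
      _ ≤ 2 ^ n := pow_le_pow_right₀ (by norm_num) (by omega)
  have h7 : 0 < q ^ b := by positivity
  have h8 : q * (q⁻¹) ^ b * (4 * 32 ^ n) ≤ 1 := by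
    have e1 : q * (q⁻¹) ^ b * (4 * 32 ^ n) = (4 * q * 32 ^ n) / q ^ b := by
      rw [inv_pow, div_eq_mul_inv]; ring
    rw [e1, div_le_one h7]
    exact h2
  have h9 : q * (q⁻¹) ^ b ≤ 1 / (4 * 32 ^ n) := by
    rw [le_div_iff₀ (by positivity)]
    exact h8
  calc ‖wt s t z X‖ * 2 ^ (nb s t X).card
      ≤ (2 * 4 ^ e * q * (q⁻¹) ^ b) * 4 ^ n := by
        rw [← h5]
        exact mul_le_mul h1 h4 (by positivity) (by positivity)
    _ ≤ (2 * 2 ^ n * (1 / (4 * 32 ^ n))) * 4 ^ n := by
        apply mul_le_mul_of_nonneg_right _ (by positivity)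
        have h10 : 2 * 4 ^ e * q * (q⁻¹) ^ b = 2 * 4 ^ e * (q * (q⁻¹) ^ b) := by ring
        rw [h10]
        apply mul_le_mul _ h9 (by positivity) (by positivity)
        linarith
    _ = 1 / 2 * (1 / 4 : ℝ) ^ n := by
        have e32 : (32 : ℝ) ^ n = 2 ^ n * 4 ^ n * 4 ^ n := by
          rw [← mul_pow, ← mul_pow]; norm_num
        rw [e32, one_div_pow]
        field_simp
        norm_num

theorem main (ε : ℝ) (hε0 : 0 < ε) (hε1 : ε ≤ 1) (s t : E → V)
    (h3 : ∀ S : Finset V, S.Nonempty → S ≠ univ → 3 ≤ bd s t S)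
    (hε : ∀ S : Finset V, 2 * vol s t S ≤ vol s t univ → ε * (vol s t S : ℝ) ≤ bd s t S)
    (z : ℂ) (hz : ((fp s t).map (algebraMap ℝ ℂ)).eval z = 0) :
    ‖z‖ ≤ (2 : ℝ) ^ (18 / ε) := by
  by_contra hcon
  push Not at hcon
  rcases Nat.eq_zero_or_pos (Fintype.card E) with hm | hm
  · -- no edges
    have hE : IsEmpty E := Fintype.card_eq_zero_iff.1 hm
    have h1 : fp s t = 1 := by
      unfold fp
      have hu : (univ : Finset (Finset E)) = {∅} := by
        ext A
        simp only [mem_univ, mem_singleton, true_iff]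
        exact Finset.eq_empty_of_isEmpty A
      rw [hu, sum_singleton, comps_empty]
      simp [hm]
    rw [h1] at hz
    simp at hz
  · have hd := deg_pos s t h3 hm
    have hC : (2 : ℝ) ^ (18 : ℝ) ≤ (2 : ℝ) ^ (18 / ε) := by
      apply Real.rpow_le_rpow_of_exponent_le (by norm_num)
      rw [le_div_iff₀ hε0]
      nlinarith
    have hC2 : (2 : ℝ) ^ (18 : ℝ) = 262144 := by norm_num
    set r := ‖z‖ with hr
    have hr1 : 262144 < r := by linarith
    set q := r - 1 with hq
    have hq0 : 4 ≤ q := by linarith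
    have hqpos : 0 < q := by linarith
    have hq1 : q ≤ ‖z - 1‖ := by
      have := norm_sub_norm_le z 1
      simp at this
      linarith
    have hz1 : z - 1 ≠ 0 := by
      intro h
      rw [h, norm_zero] at hq1
      linarith
    set m := Fintype.card E with hmdef
    -- lower bound for Phi
    have H : ∀ v : V, ∑ X ∈ univ.filter (fun X : Finset V => Con s t X v ∧
        2 * vol s t X ≤ vol s t univ), ‖wt s t z X‖ * 2 ^ (nb s t X).card ≤ 1 / 2 := by
      intro v
      calc _ ≤ ∑ X ∈ univ.filter (fun X : Finset V => Con s t X v ∧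
            2 * vol s t X ≤ vol s t univ), 1 / 2 * (1 / 4 : ℝ) ^ vol s t X := by
            apply sum_le_sum
            intro X hX
            obtain ⟨hX1, hX2⟩ := (mem_filter.1 hX).2
            apply wt_bound s t ε hε0 hε1 hd z hcon X v hX1 _ (hε X hX2)
            apply h3 X ⟨v, hX1.1⟩
            intro h
            rw [h, vol_univ] at hX2
            omega
        _ ≤ ∑ X ∈ univ.filter (fun X : Finset V => Con s t X v),
              1 / 2 * (1 / 4 : ℝ) ^ vol s t X := by
            apply sum_le_sum_of_subset_of_nonneg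
            · intro X hX
              simp only [mem_filter, mem_univ, true_and] at hX ⊢
              exact hX.1
            · intro X _ _
              positivity
        _ = 1 / 2 * ∑ X ∈ univ.filter (fun X : Finset V => Con s t X v),
              (1 / 4 : ℝ) ^ vol s t X := by rw [mul_sum]
        _ ≤ 1 / 2 * 1 := by
            apply mul_le_mul_of_nonneg_left _ (by norm_num)
            exact animals s t hd (1 / 4) (by norm_num) le_rfl v
        _ = 1 / 2 := by norm_num
    have hPhi := Phi_lower s t z H univ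
    have hn : (univ : Finset V).card ≤ m := by rw [card_univ]; exact card_V_le s t h3 hm
    have hPhi2 : (1 / 2 : ℝ) ^ m ≤ ‖Phi s t z univ‖ := by
      refine le_trans ?_ hPhi
      exact pow_le_pow_of_le_one (by norm_num) (by norm_num) hn
    -- upper bound for the difference
    have hdiff := diff_bound s t ε hε0 hε1 h3 hε hm z hz1
    have hZ : ZZ s t z = 0 := by rw [ZZ_eq, hz, mul_zero]
    rw [hZ, zero_sub, norm_neg, norm_mul, norm_mul, norm_pow, ← hr] at hdiff
    have hlow : r * (q ^ m * (1 / 2) ^ m) ≤ r * (‖z - 1‖ ^ m * ‖Phi s t z univ‖) := by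
      apply mul_le_mul_of_nonneg_left _ (by linarith)
      apply mul_le_mul _ hPhi2 (by positivity) (by positivity)
      exact pow_le_pow_left₀ hqpos.le hq1 m
    have hup : (2 : ℝ) ^ m * (2 * (r + 2) ^ ((m : ℝ) - ε * m / 3 + 1)) ≤
        r * q ^ m * (4 * (1 / 16) ^ m) := by
      have a1 : (64 : ℝ) ≤ (r + 2) ^ (ε / 3) := by
        calc (64 : ℝ) = (2 : ℝ) ^ (6 : ℝ) := by norm_num
          _ = (2 : ℝ) ^ (18 / ε * (ε / 3)) := by
            have : 18 / ε * (ε / 3) = 6 := by field_simp; norm_num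
            rw [this]
          _ = ((2 : ℝ) ^ (18 / ε)) ^ (ε / 3) := by rw [Real.rpow_mul (by norm_num)]
          _ ≤ (r + 2) ^ (ε / 3) := by
            apply Real.rpow_le_rpow (by positivity) (by linarith) (by positivity)
      have a2 : (r + 2) ^ ((m : ℝ) - ε * m / 3 + 1) * 64 ^ m ≤ (r + 2) ^ (m + 1) := by
        calc (r + 2) ^ ((m : ℝ) - ε * m / 3 + 1) * 64 ^ m
            ≤ (r + 2) ^ ((m : ℝ) - ε * m / 3 + 1) * ((r + 2) ^ (ε / 3)) ^ m := by
              apply mul_le_mul_of_nonneg_left _ (by positivity)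
              exact pow_le_pow_left₀ (by norm_num) a1 m
          _ = (r + 2) ^ ((m : ℝ) - ε * m / 3 + 1 + ε / 3 * m) := by
              rw [Real.rpow_add (show 0 < r + 2 by linarith) ((m : ℝ) - ε * m / 3 + 1) (ε / 3 * m),
                Real.rpow_mul (show 0 ≤ r + 2 by linarith) (ε / 3) m, Real.rpow_natCast]
          _ = (r + 2) ^ (((m + 1 : ℕ)) : ℝ) := by
              congr 1
              push_cast
              ring
          _ = (r + 2) ^ (m + 1) := Real.rpow_natCast _ _
      have a3 : (r + 2) ^ (m + 1) ≤ (2 * r) * (2 * q) ^ m := by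
        rw [pow_succ']
        apply mul_le_mul (by linarith) _ (by positivity) (by linarith)
        exact pow_le_pow_left₀ (by linarith) (by linarith) m
      have a4 : (r + 2) ^ ((m : ℝ) - ε * m / 3 + 1) ≤ (2 * r) * (2 * q) ^ m / 64 ^ m := by
        rw [le_div_iff₀ (by positivity)]
        exact a2.trans a3
      calc (2 : ℝ) ^ m * (2 * (r + 2) ^ ((m : ℝ) - ε * m / 3 + 1))
          ≤ (2 : ℝ) ^ m * (2 * ((2 * r) * (2 * q) ^ m / 64 ^ m)) := by
            apply mul_le_mul_of_nonneg_left _ (by positivity)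
            linarith
        _ = r * q ^ m * (4 * (1 / 16) ^ m) := by
            have e64 : (64 : ℝ) ^ m = 2 ^ m * 2 ^ m * 16 ^ m := by
              rw [← mul_pow, ← mul_pow]; norm_num
            rw [e64, mul_pow, one_div_pow]
            field_simp
            ring
    have hfin : 4 * (1 / 16 : ℝ) ^ m < (1 / 2) ^ m := by
      have e1 : (1 / 16 : ℝ) ^ m = (1 / 8) ^ m * (1 / 2) ^ m := by
        rw [← mul_pow]; norm_num
      have e2 : (1 / 8 : ℝ) ^ m ≤ 1 / 8 := by
        calc (1 / 8 : ℝ) ^ m ≤ (1 / 8) ^ 1 :=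
              pow_le_pow_of_le_one (by norm_num) (by norm_num) hm
          _ = 1 / 8 := by norm_num
      have e3 : 0 < (1 / 2 : ℝ) ^ m := by positivity
      rw [e1]
      nlinarith
    have hpos : 0 < r * q ^ m := by positivity
    have : r * q ^ m * (1 / 2) ^ m ≤ r * q ^ m * (4 * (1 / 16) ^ m) := by
      calc r * q ^ m * (1 / 2) ^ m = r * (q ^ m * (1 / 2) ^ m) := by ring
        _ ≤ r * (‖z - 1‖ ^ m * ‖Phi s t z univ‖) := hlow
        _ ≤ _ := hdiff
        _ ≤ _ := hup
    have := le_of_mul_le_mul_left this hpos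
    linarith

end Pool.Agent.LibFE4
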