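import Mathlib
import Pool.Agent.LibFE4.T2
import Pool.Agent.LibFE4.G3

/-!
# Flow roots of graphs of conductance at least `ε`
-/

set_option autoImplicit false

namespace Pool.Agent.LibFE4

open Finset Pool.Agent.H69.Flow
open scoped Classical

theorem main_all (ε : ℝ) (hε0 : 0 < ε) (hε1 : ε ≤ 1) (n : ℕ) :
    ∀ (V E : Type) (_ : Fintype V) (_ : Fintype E) (s t : E → V),
      Fintype.card V + Fintype.card E = n → fp s t ≠ 0 → Cond ε s t →
      ∀ z : ℂ, ((fp s t).map (algebraMap ℝ ℂ)).eval z = 0 → ‖z‖ ≤ (2 : ℝ) ^ (18 / ε) := by
  induction n using Nat.strong_induction_on with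
  | _ n ih =>
    intro V E _ _ s t hn h0 hc z hz
    by_cases h3 : ∀ S : Finset V, S.Nonempty → S ≠ univ → 3 ≤ bd s t S
    · exact main ε hε0 hε1 s t h3 hc z hz
    · push Not at h3
      obtain ⟨S, hS1, hS2, hS3⟩ := h3
      have hb1 : bd s t S ≠ 1 := fun h => h0 (fp_bridge s t S h)
      rcases (show bd s t S = 0 ∨ bd s t S = 2 by omega) with hb | hb
      · -- an isolated vertex
        have key : ∃ v : V, vol s t {v} = 0 := by
          have hcompl : vol s t Sᶜ + vol s t S = vol s t univ := by
            rw [vol_sum s t univ, vol_sum s t S, vol_sum s t Sᶜ,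
              Finset.sum_compl_add_sum]
          have hbc : bd s t Sᶜ = 0 := by
            rw [← hb]
            unfold bd
            congr 1
            ext e
            simp only [mem_filter, mem_univ, true_and, mem_compl]
            tauto
          have hz0 : ∀ T : Finset V, T.Nonempty → bd s t T = 0 →
              2 * vol s t T ≤ vol s t univ → ∃ v : V, vol s t {v} = 0 := by
            intro T hT hbT hvT
            have h4 := hc T hvT
            rw [hbT] at h4
            have h5 : (vol s t T : ℝ) ≤ 0 := by
              by_contra h6
              push Not at h6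
              have : 0 < ε * (vol s t T : ℝ) := mul_pos hε0 h6
              simp at h4
              linarith
            have h6 : vol s t T = 0 := by
              have : (vol s t T : ℝ) = 0 := le_antisymm h5 (by positivity)
              exact_mod_cast this
            obtain ⟨v, hv⟩ := hT
            refine ⟨v, ?_⟩
            rw [vol_sum] at h6
            exact (Finset.sum_eq_zero_iff.1 h6) v hv
          by_cases hh : 2 * vol s t S ≤ vol s t univ
          · exact hz0 S hS1 hb hh
          · apply hz0 Sᶜ _ hbc (by omega)
            rw [Finset.nonempty_iff_ne_empty]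
            intro h
            exact hS2 (by rwa [Finset.compl_eq_empty_iff] at h)
        obtain ⟨v, hv⟩ := key
        obtain ⟨V', E', i1, i2, s', t', c1, c2, c3, c4⟩ := remove_isolated ε s t v hv hc
        refine ih (Fintype.card V' + Fintype.card E') (by omega) V' E' i1 i2 s' t' rfl ?_ c4 z ?_
        · rw [c3]; exact h0
        · rw [c3]; exact hz
      · obtain ⟨V', E', i1, i2, s', t', c1, c2, c3, c4⟩ := contract ε hε0 s t S hb hc
        refine ih (Fintype.card V' + Fintype.card E') (by omega) V' E' i1 i2 s' t' rfl ?_ c4 z ?_
        · rw [c3]; exact h0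
        · rw [c3]; exact hz

end Pool.Agent.LibFE4
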